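import Pool.Agent.Q5.SZ.Link

/-!
# Mean squares and the simplicity of the zeros
-/

set_option autoImplicit false

open Filter Topology Set Complex
open CongruenceSubgroup
open scoped MatrixGroups

namespace Pool.Agent.Q5.SZ

open Pool.Agent.Q5.BP (mu)

/-- the limes superior is at most `c` -/
def AtMost (S : ℝ → ℝ) (c : ℝ) : Prop := ∀ ε : ℝ, 0 < ε → ∀ᶠ X : ℝ in atTop, S X ≤ c + ε

theorem term_nonneg (m : ℕ) (t : ℝ) : 0 ≤ (m : ℝ) * ((m : ℝ) - 1) / t ^ 2 := by
  refine div_nonneg ?_ (sq_nonneg t)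
  rcases Nat.eq_zero_or_pos m with h | h
  · rw [h]
    simp
  · have : (1 : ℝ) ≤ m := by exact_mod_cast h
    exact mul_nonneg (by linarith) (by linarith)

/-- **Simplicity of the zeros and the mean square.** -/
theorem simple_iff {P : Prop} {S : ℝ → ℝ} {m : ℝ → ℕ} {c : ℝ}
    (h1 : P → ∃ V : ℝ, HasSum (fun t : ℝ => ((m t : ℝ) / t) ^ 2) V ∧ Tendsto S atTop (𝓝 V))
    (h2 : (∃ B : ℝ, ∀ᶠ X : ℝ in atTop, S X ≤ B) → P)
    (h3 : P → HasSum (fun t : ℝ => (m t : ℝ) / t ^ 2) c) :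
    (AtMost S c ↔ P ∧ ∀ t : ℝ, t ≠ 0 → m t ≤ 1) ∧
    (∀ B : ℝ, (∀ᶠ X : ℝ in atTop, S X ≤ B) → c ≤ B) ∧
    (P → ∃ M : ℝ, HasSum (fun t : ℝ => (m t : ℝ) * ((m t : ℝ) - 1) / t ^ 2) M ∧ 0 ≤ M ∧
      Tendsto S atTop (𝓝 (c + M))) := by
  have key : P → ∃ M : ℝ, HasSum (fun t : ℝ => (m t : ℝ) * ((m t : ℝ) - 1) / t ^ 2) M ∧ 0 ≤ M ∧
      Tendsto S atTop (𝓝 (c + M)) := by
    intro hP
    obtain ⟨V, hV, hS⟩ := h1 hP
    have h4 := hV.sub (h3 hP)
    have h5 : (fun t : ℝ => ((m t : ℝ) / t) ^ 2 - (m t : ℝ) / t ^ 2) =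
        fun t : ℝ => (m t : ℝ) * ((m t : ℝ) - 1) / t ^ 2 := by
      funext t
      rw [div_pow]
      ring
    rw [h5] at h4
    refine ⟨V - c, h4, h4.nonneg fun t => term_nonneg _ _, ?_⟩
    rwa [add_sub_cancel]
  refine ⟨⟨fun h => ?_, fun ⟨hP, hm⟩ => ?_⟩, fun B hB => ?_, key⟩
  · have hP : P := h2 ⟨c + 1, h 1 one_pos⟩
    obtain ⟨M, hM, hM0, hS⟩ := key hP
    have h4 : c + M ≤ c := by
      refine le_of_forall_pos_le_add fun ε hε => ?_
      exact le_of_tendsto hS (h ε hε)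
    have h5 : M = 0 := le_antisymm (by linarith) hM0
    rw [h5] at hM
    have h6 := (hasSum_zero_iff_of_nonneg fun t => term_nonneg _ _).1 hM
    refine ⟨hP, fun t ht => ?_⟩
    have h7 := congrFun h6 t
    rw [Pi.zero_apply, div_eq_zero_iff] at h7
    rcases h7 with h7 | h7
    · rcases mul_eq_zero.1 h7 with h8 | h8
      · have : m t = 0 := by exact_mod_cast h8
        omega
      · have : (m t : ℝ) = 1 := by linarith
        have : m t = 1 := by exact_mod_cast this
        omega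
    · exact absurd (pow_eq_zero_iff (by norm_num) |>.1 h7) ht
  · obtain ⟨M, hM, hM0, hS⟩ := key hP
    have h4 : (fun t : ℝ => (m t : ℝ) * ((m t : ℝ) - 1) / t ^ 2) = fun _ => 0 := by
      funext t
      by_cases ht : t = 0
      · rw [ht]
        simp
      · have h5 := hm t ht
        interval_cases h : m t <;> simp
    rw [h4] at hM
    have h5 : M = 0 := hM.unique hasSum_zero
    rw [h5, add_zero] at hS
    intro ε hε
    exact (hS.eventually (gt_mem_nhds (show c < c + ε by linarith))).mono fun X hX => hX.le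
  · obtain ⟨M, hM, hM0, hS⟩ := key (h2 ⟨B, hB⟩)
    have := le_of_tendsto hS hB
    linarith

variable {N : ℕ} [NeZero N] {f : CuspForm (Gamma0 N : Subgroup (GL (Fin 2) ℝ)) 2} {w : ℝ}

/-- the completed function is not a monomial -/
theorem not_monomial (h1 : (UpperHalfPlane.qExpansion 1 f).coeff 1 = 1) (ρ : ℕ) :
    ¬ ∃ a : ℂ, ∀ v : ℂ, LamN f (1 + v) = a * v ^ ρ := by
  rintro ⟨a, ha⟩
  have hN : (0 : ℝ) < N := by exact_mod_cast Nat.pos_of_ne_zero (NeZero.ne N)
  set q : ℝ := √(N : ℝ) / (2 * Real.pi) with hq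
  have hq0 : 0 < q := by
    rw [hq]
    have := Real.sqrt_pos.2 hN
    positivity
  have hqc : ((q : ℝ) : ℂ) ≠ 0 := by exact_mod_cast hq0.ne'
  set c : ℕ → ℂ := fun n => (UpperHalfPlane.qExpansion 1 f).coeff n with hc
  -- the limit of the `L`-series
  have hL : ∀ s : ℂ, 2 < s.re → LSeries c s = Lf f s := by
    intro s hs
    rw [← (lf_hasSum f hs).tsum_eq, LSeries]
    refine tsum_congr fun n => ?_
    rcases Nat.eq_zero_or_pos n with h0 | h0
    · subst h0
      have hs0 : s ≠ 0 := by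
        intro h
        rw [h] at hs
        norm_num at hs
      simp [Complex.zero_cpow hs0]
    · rw [LSeries.term_of_ne_zero h0.ne']
  have hsum : LSeriesSummable c 3 := by
    have h := (lf_hasSum f (s := 3) (by norm_num)).summable
    refine h.congr fun n => ?_
    rcases Nat.eq_zero_or_pos n with h0 | h0
    · subst h0
      simp [Complex.zero_cpow (show (3 : ℂ) ≠ 0 by norm_num)]
    · rw [LSeries.term_of_ne_zero h0.ne']
  have hab : LSeries.abscissaOfAbsConv c < ⊤ :=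
    lt_of_le_of_lt hsum.abscissaOfAbsConv_le (by simp)
  have hlim := LSeries.tendsto_atTop hab
  have hlim2 : Tendsto (fun n : ℕ => Lf f ((n : ℂ) + 1)) atTop (𝓝 1) := by
    have h2 : Tendsto (fun n : ℕ => ((n : ℝ) + 1)) atTop atTop :=
      tendsto_atTop_add_const_right _ _ tendsto_natCast_atTop_atTop
    have h3 := hlim.comp h2
    have h4 : c 1 = 1 := h1
    rw [h4] at h3
    refine h3.congr' ?_
    filter_upwards [eventually_ge_atTop 2] with n hn
    have hn' : (2 : ℝ) ≤ n := by exact_mod_cast hn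
    rw [Function.comp_apply, hL _ (by rw [Complex.ofReal_re]; linarith)]
    push_cast
    rfl
  -- it tends to zero by the formula
  have hform : ∀ n : ℕ, Lf f ((n : ℂ) + 1) =
      a * (n : ℂ) ^ ρ / ((q : ℂ) ^ (n + 1) * (n.factorial : ℂ)) := by
    intro n
    have h2 := ha n
    have h3 : (1 : ℂ) + n = (n : ℂ) + 1 := by ring
    rw [h3, lamN_L f (by simp; positivity), ← hq, Complex.Gamma_nat_eq_factorial] at h2
    have h4 : ((q : ℝ) : ℂ) ^ ((n : ℂ) + 1) = ((q : ℝ) : ℂ) ^ (n + 1) := by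
      rw [← Complex.cpow_natCast]
      push_cast
      rfl
    rw [h4] at h2
    have h5 : (n.factorial : ℂ) ≠ 0 := by exact_mod_cast n.factorial_ne_zero
    rw [← h2]
    field_simp
  have hzero : Tendsto (fun n : ℕ => Lf f ((n : ℂ) + 1)) atTop (𝓝 0) := by
    have h2 : Tendsto (fun n : ℕ => (‖a‖ * ρ.factorial / q) * ((Real.exp 1 / q) ^ n / (n.factorial : ℝ)))
        atTop (𝓝 0) := by
      have := (FloorSemiring.tendsto_pow_div_factorial_atTop (Real.exp 1 / q)).const_mul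
        (‖a‖ * ρ.factorial / q)
      rwa [mul_zero] at this
    refine squeeze_zero_norm (fun n => ?_) h2
    rw [hform n, norm_div, norm_mul, norm_mul, norm_pow, norm_pow, Complex.norm_natCast,
      Complex.norm_natCast, Complex.norm_real, Real.norm_eq_abs, abs_of_pos hq0]
    have h3 : (n : ℝ) ^ ρ ≤ ρ.factorial * Real.exp 1 ^ n := by
      have h4 := Real.pow_div_factorial_le_exp (n : ℝ) (Nat.cast_nonneg n) ρ
      rw [div_le_iff₀ (by positivity)] at h4
      calc (n : ℝ) ^ ρ ≤ Real.exp n * ρ.factorial := h4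
        _ = _ := by rw [← Real.exp_one_pow]; ring
    have hnf : (0 : ℝ) < n.factorial := by positivity
    rw [div_le_iff₀ (by positivity)]
    calc ‖a‖ * (n : ℝ) ^ ρ ≤ ‖a‖ * (ρ.factorial * Real.exp 1 ^ n) :=
          mul_le_mul_of_nonneg_left h3 (norm_nonneg _)
      _ = _ := by
        rw [div_pow, pow_succ]
        field_simp
  exact one_ne_zero (tendsto_nhds_unique hlim2 hzero)

end Pool.Agent.Q5.SZ
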