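import Pool.Agent.Q5.SZ.Same
import Pool.Agent.Q5.SZ.Main
import Pool.Agent.Q5.BP.Pack

/-!
# The zeros of the completed `L`-function determine the newform
-/

set_option autoImplicit false

open Filter Topology Set Complex
open CongruenceSubgroup Pool.Agent.TH941
open scoped MatrixGroups

namespace Pool.Agent.Q5.SZ

/-! ### comparison of sequences -/

theorem fact_le {A₁ A₂ : ℝ} (h1 : 0 < A₁) (h2 : 0 < A₂) {x y : ℕ → ℂ} (hx : Tendsto x atTop (𝓝 1))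
    (hy : Tendsto y atTop (𝓝 1)) {p q a b : ℕ} {c : ℂ}
    (h : ∀ n : ℕ, ((A₁ : ℂ) ^ (n + 1) * (n.factorial : ℂ) * x n) ^ q * (n : ℂ) ^ a =
      c * ((A₂ : ℂ) ^ (n + 1) * (n.factorial : ℂ) * y n) ^ p * (n : ℂ) ^ b) : q ≤ p := by
  by_contra hlt
  push Not at hlt
  obtain ⟨d, hd⟩ : ∃ d : ℕ, q = p + (d + 1) := ⟨q - p - 1, by omega⟩
  set r : ℝ := A₂ ^ p / A₁ ^ q * Real.exp 1 with hr
  have hr0 : 0 < r := by positivity
  set C : ℝ := ‖c‖ * 2 ^ (p + q) * b.factorial * (A₂ ^ p / A₁ ^ q) with hC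
  have hlim : Tendsto (fun n : ℕ => C * (r ^ n / (n.factorial : ℝ))) atTop (𝓝 0) := by
    have := (FloorSemiring.tendsto_pow_div_factorial_atTop r).const_mul C
    rwa [mul_zero] at this
  have e1 := hx.norm.eventually (lt_mem_nhds (show (1 / 2 : ℝ) < ‖(1 : ℂ)‖ by norm_num))
  have e2 := hy.norm.eventually (gt_mem_nhds (show ‖(1 : ℂ)‖ < (2 : ℝ) by norm_num))
  obtain ⟨n, k1, k2, k3, k4⟩ := (e1.and (e2.and ((hlim.eventually (gt_mem_nhds one_pos)).and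
    (eventually_ge_atTop 1)))).exists
  have hn1 : (1 : ℝ) ≤ n := by exact_mod_cast k4
  have hnf : (0 : ℝ) < n.factorial := by positivity
  have hnf1 : (1 : ℝ) ≤ n.factorial := by exact_mod_cast n.factorial_pos
  have h3 := congrArg norm (h n)
  simp only [norm_mul, norm_pow, Complex.norm_natCast, Complex.norm_real, Real.norm_eq_abs,
    abs_of_pos h1, abs_of_pos h2] at h3
  have h4 : (n : ℝ) ^ b ≤ b.factorial * Real.exp 1 ^ n := by
    have h4 := Real.pow_div_factorial_le_exp (n : ℝ) (Nat.cast_nonneg n) b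
    rw [div_le_iff₀ (by positivity)] at h4
    calc (n : ℝ) ^ b ≤ Real.exp n * b.factorial := h4
      _ = _ := by rw [← Real.exp_one_pow]; ring
  have h5 : (A₁ ^ (n + 1) * n.factorial * (1 / 2)) ^ q ≤
      (A₁ ^ (n + 1) * n.factorial * ‖x n‖) ^ q * (n : ℝ) ^ a := by
    calc (A₁ ^ (n + 1) * n.factorial * (1 / 2)) ^ q ≤ (A₁ ^ (n + 1) * n.factorial * ‖x n‖) ^ q := by
          gcongr
      _ ≤ _ := le_mul_of_one_le_right (by positivity) (one_le_pow₀ hn1)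
  have h6 : ‖c‖ * (A₂ ^ (n + 1) * n.factorial * ‖y n‖) ^ p * (n : ℝ) ^ b ≤
      ‖c‖ * (A₂ ^ (n + 1) * n.factorial * 2) ^ p * (b.factorial * Real.exp 1 ^ n) := by
    gcongr
  rw [h3] at h5
  have h7 := h5.trans h6
  -- divide
  have h8 : (n.factorial : ℝ) ≤ C * r ^ n := by
    have e3 : (A₁ ^ (n + 1) * n.factorial * (1 / 2)) ^ q =
        (n.factorial : ℝ) ^ p * (n.factorial : ℝ) ^ d * (n.factorial : ℝ) * ((A₁ ^ q) ^ (n + 1) *
          (1 / 2) ^ q) := by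
      rw [mul_pow, mul_pow, hd, pow_add (n.factorial : ℝ), pow_succ (n.factorial : ℝ) d,
        ← pow_mul, ← pow_mul, mul_comm (n + 1)]
      ring
    have e4 : ‖c‖ * (A₂ ^ (n + 1) * n.factorial * 2) ^ p * (b.factorial * Real.exp 1 ^ n) =
        (n.factorial : ℝ) ^ p * (‖c‖ * (A₂ ^ p) ^ (n + 1) * 2 ^ p * b.factorial * Real.exp 1 ^ n) := by
      rw [mul_pow, mul_pow, ← pow_mul, ← pow_mul, mul_comm (n + 1)]
      ring
    rw [e3, e4, mul_assoc, mul_assoc] at h7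
    have h9 := le_of_mul_le_mul_left h7 (by positivity : (0 : ℝ) < (n.factorial : ℝ) ^ p)
    have h10 : (n.factorial : ℝ) * ((A₁ ^ q) ^ (n + 1) * (1 / 2) ^ q) ≤
        (n.factorial : ℝ) ^ d * ((n.factorial : ℝ) * ((A₁ ^ q) ^ (n + 1) * (1 / 2) ^ q)) :=
      le_mul_of_one_le_left (by positivity) (one_le_pow₀ hnf1)
    have h11 := h10.trans h9
    rw [← le_div_iff₀ (by positivity)] at h11
    refine h11.trans (le_of_eq ?_)
    rw [hC, hr, mul_pow, div_pow (A₂ ^ p), div_pow (1 : ℝ), one_pow, pow_add (2 : ℝ),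
      pow_succ (A₂ ^ p), pow_succ (A₁ ^ q)]
    field_simp
  rw [mul_div_assoc'] at k3
  rw [div_lt_one hnf] at k3
  linarith

theorem exp_le {A₁ A₂ : ℝ} (h1 : 0 < A₁) (h2 : 0 < A₂) {x y : ℕ → ℂ} (hx : Tendsto x atTop (𝓝 1))
    (hy : Tendsto y atTop (𝓝 1)) {a b : ℕ} {c : ℂ}
    (h : ∀ n : ℕ, (A₁ : ℂ) ^ (n + 1) * x n * (n : ℂ) ^ a = c * ((A₂ : ℂ) ^ (n + 1) * y n) * (n : ℂ) ^ b) :
    A₁ ≤ A₂ := by
  by_contra hlt
  push Not at hlt
  set r : ℝ := A₁ / A₂ with hr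
  have hr1 : 1 < r := (one_lt_div h2).2 hlt
  have hr0 : 0 < r := by linarith
  have hlim : Tendsto (fun n : ℕ => (4 * ‖c‖ / r) * ((n : ℝ) ^ b / r ^ n)) atTop (𝓝 0) := by
    have := (tendsto_pow_const_div_const_pow_of_one_lt b hr1).const_mul (4 * ‖c‖ / r)
    rwa [mul_zero] at this
  have e1 := hx.norm.eventually (lt_mem_nhds (show (1 / 2 : ℝ) < ‖(1 : ℂ)‖ by norm_num))
  have e2 := hy.norm.eventually (gt_mem_nhds (show ‖(1 : ℂ)‖ < (2 : ℝ) by norm_num))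
  obtain ⟨n, k1, k2, k3, k4⟩ := (e1.and (e2.and ((hlim.eventually (gt_mem_nhds one_pos)).and
    (eventually_ge_atTop 1)))).exists
  have hn1 : (1 : ℝ) ≤ n := by exact_mod_cast k4
  have h3 := congrArg norm (h n)
  simp only [norm_mul, norm_pow, Complex.norm_natCast, Complex.norm_real, Real.norm_eq_abs,
    abs_of_pos h1, abs_of_pos h2] at h3
  have h5 : A₁ ^ (n + 1) * (1 / 2) ≤ A₁ ^ (n + 1) * ‖x n‖ * (n : ℝ) ^ a := by
    calc A₁ ^ (n + 1) * (1 / 2) ≤ A₁ ^ (n + 1) * ‖x n‖ := by gcongr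
      _ ≤ _ := le_mul_of_one_le_right (by positivity) (one_le_pow₀ hn1)
  have h6 : ‖c‖ * (A₂ ^ (n + 1) * ‖y n‖) * (n : ℝ) ^ b ≤ ‖c‖ * (A₂ ^ (n + 1) * 2) * (n : ℝ) ^ b := by
    gcongr
  rw [h3] at h5
  have h7 := h5.trans h6
  have h8 : r ^ (n + 1) ≤ 4 * ‖c‖ * (n : ℝ) ^ b := by
    rw [hr, div_pow, div_le_iff₀ (by positivity)]
    nlinarith
  have h9 : (4 * ‖c‖ / r) * ((n : ℝ) ^ b / r ^ n) = 4 * ‖c‖ * (n : ℝ) ^ b / r ^ (n + 1) := by
    rw [pow_succ]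
    field_simp
  rw [h9, div_lt_one (by positivity)] at k3
  linarith

theorem pow_le' {x y : ℕ → ℂ} (hx : Tendsto x atTop (𝓝 1)) (hy : Tendsto y atTop (𝓝 1)) {a b : ℕ}
    {c : ℂ} (h : ∀ n : ℕ, x n * (n : ℂ) ^ a = c * y n * (n : ℂ) ^ b) : a ≤ b := by
  by_contra hlt
  push Not at hlt
  obtain ⟨d, hd⟩ : ∃ d : ℕ, a = b + (d + 1) := ⟨a - b - 1, by omega⟩
  have hlim : Tendsto (fun n : ℕ => (4 * ‖c‖) * ((n : ℝ))⁻¹) atTop (𝓝 0) := by
    have := (tendsto_inv_atTop_zero.comp (tendsto_natCast_atTop_atTop (R := ℝ))).const_mul (4 * ‖c‖)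
    rwa [mul_zero] at this
  have e1 := hx.norm.eventually (lt_mem_nhds (show (1 / 2 : ℝ) < ‖(1 : ℂ)‖ by norm_num))
  have e2 := hy.norm.eventually (gt_mem_nhds (show ‖(1 : ℂ)‖ < (2 : ℝ) by norm_num))
  obtain ⟨n, k1, k2, k3, k4⟩ := (e1.and (e2.and ((hlim.eventually (gt_mem_nhds one_pos)).and
    (eventually_ge_atTop 1)))).exists
  have hn1 : (1 : ℝ) ≤ n := by exact_mod_cast k4
  have hn0 : (0 : ℝ) < n := by linarith
  have h3 := congrArg norm (h n)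
  simp only [norm_mul, norm_pow, Complex.norm_natCast] at h3
  rw [hd, pow_add, pow_succ] at h3
  have hb0 : (0 : ℝ) < (n : ℝ) ^ b := by positivity
  have h4 : ‖x n‖ * ((n : ℝ) ^ d * n) = ‖c‖ * ‖y n‖ := by
    apply mul_left_cancel₀ hb0.ne'
    linear_combination h3
  have h5 : (1 / 2 : ℝ) * n ≤ ‖x n‖ * ((n : ℝ) ^ d * n) := by
    have : (n : ℝ) ≤ (n : ℝ) ^ d * n := le_mul_of_one_le_left hn0.le (one_le_pow₀ hn1)
    exact mul_le_mul k1.le this hn0.le (norm_nonneg _)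
  have h6 : ‖c‖ * ‖y n‖ ≤ ‖c‖ * 2 := by gcongr
  have h7 : (4 * ‖c‖) * ((n : ℝ))⁻¹ = 4 * ‖c‖ / n := by ring
  rw [h7, div_lt_one hn0] at k3
  linarith

/-! ### newforms -/

variable {N : ℕ} [NeZero N] {f : CuspForm (Gamma0 N : Subgroup (GL (Fin 2) ℝ)) 2} {w : ℝ}

theorem lf_LSeries (f : CuspForm (Gamma0 N : Subgroup (GL (Fin 2) ℝ)) 2) {s : ℂ} (hs : 2 < s.re) :
    LSeries (fun n => (UpperHalfPlane.qExpansion 1 f).coeff n) s = Lf f s := by
  rw [← (lf_hasSum f hs).tsum_eq, LSeries]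
  refine tsum_congr fun n => ?_
  rcases Nat.eq_zero_or_pos n with h0 | h0
  · subst h0
    have hs0 : s ≠ 0 := by
      intro h
      rw [h] at hs
      norm_num at hs
    simp [Complex.zero_cpow hs0]
  · rw [LSeries.term_of_ne_zero h0.ne']

theorem lf_abs (f : CuspForm (Gamma0 N : Subgroup (GL (Fin 2) ℝ)) 2) :
    LSeries.abscissaOfAbsConv (fun n => (UpperHalfPlane.qExpansion 1 f).coeff n) < ⊤ := by
  have hsum : LSeriesSummable (fun n => (UpperHalfPlane.qExpansion 1 f).coeff n) 3 := by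
    have h := (lf_hasSum f (s := 3) (by norm_num)).summable
    refine h.congr fun n => ?_
    rcases Nat.eq_zero_or_pos n with h0 | h0
    · subst h0
      simp [Complex.zero_cpow (show (3 : ℂ) ≠ 0 by norm_num)]
    · rw [LSeries.term_of_ne_zero h0.ne']
  exact lt_of_le_of_lt hsum.abscissaOfAbsConv_le (by simp)

theorem lf_tendsto (h1 : (UpperHalfPlane.qExpansion 1 f).coeff 1 = 1) :
    Tendsto (fun n : ℕ => Lf f ((n : ℂ) + 1)) atTop (𝓝 1) := by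
  have hlim := LSeries.tendsto_atTop (lf_abs f)
  have h2 : Tendsto (fun n : ℕ => ((n : ℝ) + 1)) atTop atTop :=
    tendsto_atTop_add_const_right _ _ tendsto_natCast_atTop_atTop
  have h3 := hlim.comp h2
  rw [h1] at h3
  refine h3.congr' ?_
  filter_upwards [eventually_ge_atTop 2] with n hn
  have hn' : (2 : ℝ) ≤ n := by exact_mod_cast hn
  rw [Function.comp_apply, lf_LSeries f (by rw [Complex.ofReal_re]; linarith)]
  push_cast
  rfl

theorem lamN_nat (f : CuspForm (Gamma0 N : Subgroup (GL (Fin 2) ℝ)) 2) (n : ℕ) :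
    LamN f (1 + n) = ((√(N : ℝ) / (2 * Real.pi) : ℝ) : ℂ) ^ (n + 1) * (n.factorial : ℂ) *
      Lf f ((n : ℂ) + 1) := by
  have h3 : (1 : ℂ) + n = (n : ℂ) + 1 := by ring
  rw [h3, lamN_L f (by simp; positivity), Complex.Gamma_nat_eq_factorial]
  congr 2
  rw [← Complex.cpow_natCast]
  push_cast
  rfl

/-- the multiplicity at `1 + it` -/
noncomputable def ml (Λ : ℂ → ℂ) (t : ℝ) : ℕ := (analyticOrderAt Λ (1 + t * I)).toNat

variable {N' : ℕ} [NeZero N'] {f' : CuspForm (Gamma0 N' : Subgroup (GL (Fin 2) ℝ)) 2} {w' : ℝ}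

/-- the data of one completed function -/
theorem one_data (hf : Frk f w) (hw : w = 1 ∨ w = -1)
    (hR : ∀ s : ℂ, LamN f s = 0 → s.re = 1) :
    ∃ (ρ : ℕ) (g : ℂ → ℂ), Differentiable ℂ g ∧ (∀ v, LamN f (1 + v) = v ^ ρ * g v) ∧ g 0 ≠ 0 ∧
      (∀ v, g (-v) = g v) ∧ (∃ K : ℝ, 0 ≤ K ∧ ∀ v, ‖g v‖ ≤ Real.exp (K * (1 + ‖v‖) ^ (3 / 2 : ℝ))) ∧
      ∀ u : ℂ, analyticOrderAt g u ≠ ⊤ ∧ (analyticOrderAt g u).toNat =
        if u.re = 0 ∧ u.im ≠ 0 then ml (LamN f) u.im else 0 := by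
  have hfin : analyticOrderAt (LamN f) 1 ≠ ⊤ := by
    intro h8
    rw [analyticOrderAt_eq_top] at h8
    have han : AnalyticOnNhd ℂ (LamN f) Set.univ := fun z _ => (lamN_diff f).analyticAt z
    have h9 := han.eqOn_zero_of_preconnected_of_eventuallyEq_zero isPreconnected_univ
      (Set.mem_univ 1) h8
    have h10 : LamN f (2 : ℂ) = 0 := h9 (Set.mem_univ _)
    have := hR _ h10
    norm_num at this
  obtain ⟨K, hC⟩ := compl_frk hf hw (ENat.natCast_toNat hfin).symm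
  obtain ⟨g, hg, hΦ, h0, he, hK⟩ := hC.quot
  refine ⟨_, g, hg, hΦ, h0, he, hK, fun u => ⟨ord_ne_top hg h0 u, ?_⟩⟩
  split_ifs with hu
  · have h2 := mu_quot hg hΦ hu.2
    have h3 : u = (u.im : ℂ) * I := by
      apply Complex.ext
      · simp [hu.1]
      · simp
    have h4 : Pool.Agent.Q5.BP.mu (fun z => LamN f (1 + z)) u.im = ml (LamN f) u.im :=
      Pool.Agent.Q5.BP.mu_shift (LamN f) 1 u.im
    rw [← h4, h2]
    unfold Pool.Agent.Q5.BP.mu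
    rw [← h3]
  · have hne : g u ≠ 0 := by
      intro h2
      have h3 : LamN f (1 + u) = 0 := by rw [hΦ u, h2, mul_zero]
      have h4 := hR _ h3
      have h5 : u.re = 0 := by simpa using h4
      have h6 : u.im = 0 := by
        by_contra h
        exact hu ⟨h5, h⟩
      have h7 : u = 0 := Complex.ext h5 h6
      rw [h7] at h2
      exact h0 h2
    rw [((hg.analyticAt u).analyticOrderAt_eq_zero).2 hne]
    rfl

/-- **proportional multiplicities are equal** -/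
theorem prop_eq (hf : Frk f w) (hw : w = 1 ∨ w = -1) (h1 : (UpperHalfPlane.qExpansion 1 f).coeff 1 = 1)
    (hR : ∀ s : ℂ, LamN f s = 0 → s.re = 1) (hf' : Frk f' w') (hw' : w' = 1 ∨ w' = -1)
    (h1' : (UpperHalfPlane.qExpansion 1 f').coeff 1 = 1) (hR' : ∀ s : ℂ, LamN f' s = 0 → s.re = 1)
    {p q : ℕ} (hm : ∀ t : ℝ, t ≠ 0 → q * ml (LamN f) t = p * ml (LamN f') t) :
    ∃ (ρ ρ' : ℕ) (c : ℂ), c ≠ 0 ∧ (∀ v, LamN f (1 + v) ^ q * v ^ (ρ' * p) =
      c * LamN f' (1 + v) ^ p * v ^ (ρ * q)) ∧ q = p := by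
  obtain ⟨ρ, g, hg, hΦ, h0, he, ⟨K, hK, hgr⟩, ho⟩ := one_data hf hw hR
  obtain ⟨ρ', g', hg', hΦ', h0', he', ⟨K', hK', hgr'⟩, ho'⟩ := one_data hf' hw' hR'
  have gr : ∀ {g : ℂ → ℂ} {K : ℝ} (n : ℕ), (∀ v, ‖g v‖ ≤ Real.exp (K * (1 + ‖v‖) ^ (3 / 2 : ℝ))) →
      ∀ v, ‖g v ^ n‖ ≤ Real.exp (n * K * (1 + ‖v‖) ^ (3 / 2 : ℝ)) := by
    intro g K n h v
    rw [norm_pow, mul_assoc, Real.exp_nat_mul]
    exact pow_le_pow_left₀ (norm_nonneg _) (h v) n
  have od : ∀ {g : ℂ → ℂ} (n : ℕ), Differentiable ℂ g → ∀ u, analyticOrderAt (fun v => g v ^ n) u =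
      n • analyticOrderAt g u := fun n hg u => analyticOrderAt_pow (hg.analyticAt u) n
  obtain ⟨c, hc, hcg⟩ := same_even (g₁ := fun v => g v ^ q) (g₂ := fun v => g' v ^ p)
    (hg.pow q) (hg'.pow p) (K₁ := q * K) (K₂ := p * K') (by positivity) (by positivity)
    (gr q hgr) (gr p hgr') (fun u => by
      rw [od q hg, od p hg']
      obtain ⟨t1, t2⟩ := ho u
      obtain ⟨t3, t4⟩ := ho' u
      rw [← ENat.natCast_toNat t1, ← ENat.natCast_toNat t3, t2, t4]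
      split_ifs with hu
      · have := hm u.im hu.2
        simp only [nsmul_eq_mul]
        exact_mod_cast this
      · simp) (pow_ne_zero q h0) (fun v => by simp only [he]) (fun v => by simp only [he'])
  have hrel : ∀ v, LamN f (1 + v) ^ q * v ^ (ρ' * p) = c * LamN f' (1 + v) ^ p * v ^ (ρ * q) := by
    intro v
    have h2 : g v ^ q = c * g' v ^ p := hcg v
    rw [hΦ v, hΦ' v, mul_pow, mul_pow, h2, pow_mul, pow_mul]
    ring
  refine ⟨ρ, ρ', c, hc, hrel, ?_⟩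
  have hQ : ∀ {M : ℕ} [NeZero M], (0 : ℝ) < √(M : ℝ) / (2 * Real.pi) := by
    intro M _
    have hN : (0 : ℝ) < M := by exact_mod_cast Nat.pos_of_ne_zero (NeZero.ne M)
    have := Real.sqrt_pos.2 hN
    positivity
  have l1 := lf_tendsto h1
  have l2 := lf_tendsto h1'
  have e : ∀ n : ℕ, (((√(N : ℝ) / (2 * Real.pi) : ℝ) : ℂ) ^ (n + 1) * (n.factorial : ℂ) *
      Lf f ((n : ℂ) + 1)) ^ q * (n : ℂ) ^ (ρ' * p) = c * (((√(N' : ℝ) / (2 * Real.pi) : ℝ) : ℂ) ^ (n + 1) *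
        (n.factorial : ℂ) * Lf f' ((n : ℂ) + 1)) ^ p * (n : ℂ) ^ (ρ * q) := by
    intro n
    have h3 := hrel n
    rw [lamN_nat, lamN_nat] at h3
    exact h3
  refine le_antisymm (fact_le (hQ (M := N)) (hQ (M := N')) l1 l2 e)
    (fact_le (hQ (M := N')) (hQ (M := N)) l2 l1 (a := ρ * q) (b := ρ' * p) (c := c⁻¹) fun n => ?_)
  rw [mul_assoc c⁻¹, e n]
  field_simp

/-- **The zeros determine the newform.** -/
theorem zeros_determine (hf : Frk f w) (hw : w = 1 ∨ w = -1)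
    (h1 : (UpperHalfPlane.qExpansion 1 f).coeff 1 = 1)
    (hR : ∀ s : ℂ, LamN f s = 0 → s.re = 1) (hf' : Frk f' w') (hw' : w' = 1 ∨ w' = -1)
    (h1' : (UpperHalfPlane.qExpansion 1 f').coeff 1 = 1) (hR' : ∀ s : ℂ, LamN f' s = 0 → s.re = 1)
    (hm : ∀ t : ℝ, t ≠ 0 → ml (LamN f) t = ml (LamN f') t) :
    N = N' ∧ LamN f = LamN f' ∧ ∀ n : ℕ, n ≠ 0 →
      (UpperHalfPlane.qExpansion 1 f).coeff n = (UpperHalfPlane.qExpansion 1 f').coeff n := by
  obtain ⟨ρ, ρ', c, hc, hrel, -⟩ := prop_eq hf hw h1 hR hf' hw' h1' hR' (p := 1) (q := 1)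
    fun t ht => by rw [one_mul, one_mul, hm t ht]
  simp only [pow_one, mul_one] at hrel
  have hQ : ∀ {M : ℕ} [NeZero M], (0 : ℝ) < √(M : ℝ) / (2 * Real.pi) := by
    intro M _
    have hN : (0 : ℝ) < M := by exact_mod_cast Nat.pos_of_ne_zero (NeZero.ne M)
    have := Real.sqrt_pos.2 hN
    positivity
  have l1 := lf_tendsto h1
  have l2 := lf_tendsto h1'
  have e : ∀ n : ℕ, ((√(N : ℝ) / (2 * Real.pi) : ℝ) : ℂ) ^ (n + 1) * Lf f ((n : ℂ) + 1) *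
      (n : ℂ) ^ ρ' = c * (((√(N' : ℝ) / (2 * Real.pi) : ℝ) : ℂ) ^ (n + 1) * Lf f' ((n : ℂ) + 1)) *
        (n : ℂ) ^ ρ := by
    intro n
    have h3 := hrel n
    rw [lamN_nat, lamN_nat] at h3
    have h5 : (n.factorial : ℂ) ≠ 0 := by exact_mod_cast n.factorial_ne_zero
    apply mul_left_cancel₀ h5
    linear_combination h3
  have e' : ∀ n : ℕ, ((√(N' : ℝ) / (2 * Real.pi) : ℝ) : ℂ) ^ (n + 1) * Lf f' ((n : ℂ) + 1) *
      (n : ℂ) ^ ρ = c⁻¹ * (((√(N : ℝ) / (2 * Real.pi) : ℝ) : ℂ) ^ (n + 1) * Lf f ((n : ℂ) + 1)) *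
        (n : ℂ) ^ ρ' := by
    intro n
    rw [mul_assoc c⁻¹, e n]
    field_simp
  have hQQ : √(N : ℝ) / (2 * Real.pi) = √(N' : ℝ) / (2 * Real.pi) :=
    le_antisymm (exp_le (hQ (M := N)) (hQ (M := N')) l1 l2 e) (exp_le (hQ (M := N')) (hQ (M := N)) l2 l1 e')
  have hNN : N = N' := by
    have hpi : (2 * Real.pi) ≠ 0 := by positivity
    have h3 : √(N : ℝ) = √(N' : ℝ) := by
      have := congrArg (fun x => x * (2 * Real.pi)) hQQ
      simpa only [div_mul_cancel₀ _ hpi] using this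
    have h4 := congrArg (fun x => x ^ 2) h3
    simp only [Real.sq_sqrt (Nat.cast_nonneg N), Real.sq_sqrt (Nat.cast_nonneg N')] at h4
    exact_mod_cast h4
  have hQc : ((√(N' : ℝ) / (2 * Real.pi) : ℝ) : ℂ) ≠ 0 := by exact_mod_cast (hQ (M := N')).ne'
  have f1 : ∀ n : ℕ, Lf f ((n : ℂ) + 1) * (n : ℂ) ^ ρ' = c * Lf f' ((n : ℂ) + 1) * (n : ℂ) ^ ρ := by
    intro n
    have h3 := e n
    rw [hQQ] at h3
    apply mul_left_cancel₀ (pow_ne_zero (n + 1) hQc)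
    linear_combination h3
  have f2 : ∀ n : ℕ, Lf f' ((n : ℂ) + 1) * (n : ℂ) ^ ρ = c⁻¹ * Lf f ((n : ℂ) + 1) * (n : ℂ) ^ ρ' := by
    intro n
    rw [mul_assoc c⁻¹, f1 n]
    field_simp
  have hρ : ρ' = ρ := le_antisymm (pow_le' l1 l2 f1) (pow_le' l2 l1 f2)
  have hc1 : c = 1 := by
    have h3 : Tendsto (fun n : ℕ => c * Lf f' ((n : ℂ) + 1)) atTop (𝓝 (c * 1)) := l2.const_mul c
    have h4 : Tendsto (fun n : ℕ => c * Lf f' ((n : ℂ) + 1)) atTop (𝓝 1) := by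
      refine l1.congr' ?_
      filter_upwards [eventually_ge_atTop 1] with n hn
      have hn0 : (n : ℂ) ≠ 0 := by
        have : n ≠ 0 := by omega
        exact_mod_cast this
      have h5 := f1 n
      rw [hρ] at h5
      exact mul_right_cancel₀ (pow_ne_zero ρ hn0) h5
    rw [mul_one] at h3
    exact tendsto_nhds_unique h3 h4
  have hΛ : LamN f = LamN f' := by
    have han : AnalyticOnNhd ℂ (LamN f) Set.univ := fun z _ => (lamN_diff f).analyticAt z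
    have han' : AnalyticOnNhd ℂ (LamN f') Set.univ := fun z _ => (lamN_diff f').analyticAt z
    refine AnalyticOnNhd.eq_of_eventuallyEq han han' (z₀ := 2) ?_
    have ho : IsOpen {z : ℂ | z ≠ 1} := isOpen_ne
    filter_upwards [ho.mem_nhds (show (2 : ℂ) ≠ 1 by norm_num)] with z hz
    have h3 := hrel (z - 1)
    rw [add_sub_cancel, hc1, one_mul, hρ] at h3
    exact mul_right_cancel₀ (pow_ne_zero ρ (sub_ne_zero.2 hz)) h3
  refine ⟨hNN, hΛ, fun n hn => ?_⟩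
  refine LSeries.eq_of_LSeries_eventually_eq (lf_abs f) (lf_abs f') ?_ hn
  filter_upwards [eventually_gt_atTop 2] with x hx
  have hx2 : 2 < (x : ℂ).re := by rwa [Complex.ofReal_re]
  have hx0 : 0 < (x : ℂ).re := by linarith
  rw [lf_LSeries f hx2, lf_LSeries f' hx2]
  have h3 := congrFun hΛ x
  rw [lamN_L f hx0, lamN_L f' hx0, hQQ] at h3
  refine mul_left_cancel₀ (mul_ne_zero (fun h => hQc ((Complex.cpow_eq_zero_iff _ _).1 h).1)
    (Complex.Gamma_ne_zero_of_re_pos hx0)) h3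

end Pool.Agent.Q5.SZ
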