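import Pool.Agent.Q5.SZ.Comp
import Pool.Agent.Q5.BP.Pack

/-!
# Mean squares and the simplicity of the zeros: general completed functions
-/

set_option autoImplicit false

open Filter Topology Set Complex

namespace Pool.Agent.Q5.SZ

open Pool.Agent.Q5.BP (mu)

/-- `Λ` is a completed function of `F` with centre `a` -/
structure CompOf (F Λ : ℂ → ℂ) (a : ℝ) : Prop where
  diff : Differentiable ℂ Λ
  growth : ∃ K : ℝ, ∀ s : ℂ, ‖Λ s‖ ≤ Real.exp (K * (1 + ‖s‖) ^ (3 / 2 : ℝ))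
  fe : ∃ w : ℂ, ∀ s : ℂ, Λ (2 * a - s) = w * Λ s
  gam : ∃ γ : ℂ → ℂ, (∀ s : ℂ, a ≤ s.re → AnalyticAt ℂ γ s ∧ γ s ≠ 0) ∧
    ∃ η : ℝ, 0 < η ∧ ∀ s : ℂ, a - η < s.re → s ≠ a → Λ s = γ s * F s

/-- the zeros different from the centre are simple -/
def Simp (Λ : ℂ → ℂ) (a : ℝ) : Prop := ∀ s : ℂ, s ≠ a → Λ s = 0 → deriv Λ s ≠ 0

/-- the order at the centre -/
noncomputable def ordA (Λ : ℂ → ℂ) (a : ℝ) : ℕ := (analyticOrderAt Λ a).toNat

/-- the constant -/
noncomputable def cA (Λ : ℂ → ℂ) (a : ℝ) : ℝ :=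
  (2 * iteratedDeriv (ordA Λ a + 2) Λ a /
    ((ordA Λ a + 1) * (ordA Λ a + 2) * iteratedDeriv (ordA Λ a) Λ a)).re

/-- the order at `a + it` -/
noncomputable def multA (F : ℂ → ℂ) (a t : ℝ) : ℕ := (analyticOrderAt F (a + t * I)).toNat

/-- the limes superior is at most `c` -/
def AtMost (S : ℝ → ℝ) (c : ℝ) : Prop := ∀ ε : ℝ, 0 < ε → ∀ᶠ X : ℝ in atTop, S X ≤ c + ε

theorem simple_order {Λ : ℂ → ℂ} (hΛ : Differentiable ℂ Λ) {s : ℂ} (hs : Λ s = 0) :
    deriv Λ s ≠ 0 ↔ analyticOrderAt Λ s = 1 := by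
  have h1 := (hΛ.analyticAt s).analyticOrderAt_deriv_add_one
  rw [hs] at h1
  simp only [sub_zero] at h1
  have h2 := (hΛ.analyticAt s).deriv.analyticOrderAt_eq_zero
  rw [← h2]
  have h3 : (fun z => Λ z) = Λ := rfl
  rw [← h1]
  constructor
  · intro h
    rw [h, zero_add]
  · intro h
    have h4 : analyticOrderAt (deriv Λ) s ≠ ⊤ := by
      intro h5
      rw [h5] at h
      simp at h
    obtain ⟨n, hn⟩ := ENat.ne_top_iff_exists.1 h4
    rw [← hn] at h ⊢
    have h5 : n + 1 = 1 := by exact_mod_cast h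
    have h6 : n = 0 := by omega
    rw [h6]
    rfl

theorem term_nonneg (m : ℕ) (t : ℝ) : 0 ≤ (m : ℝ) * ((m : ℝ) - 1) / t ^ 2 := by
  refine div_nonneg ?_ (sq_nonneg t)
  rcases Nat.eq_zero_or_pos m with h | h
  · rw [h]
    simp
  · have : (1 : ℝ) ≤ m := by exact_mod_cast h
    exact mul_nonneg (by linarith) (by linarith)

/-- **Simplicity of the zeros and the mean square.** -/
theorem simple_iff {P : Prop} {S : ℝ → ℝ} {m : ℝ → ℕ} {c : ℝ}
    (h1 : P → ∃ V : ℝ, HasSum (fun t : ℝ => ((m t : ℝ) / t) ^ 2) V ∧ Tendsto S atTop (𝓝 V))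
    (h2 : (∃ B : ℝ, ∀ᶠ X : ℝ in atTop, S X ≤ B) → P)
    (h3 : P → HasSum (fun t : ℝ => (m t : ℝ) / t ^ 2) c) :
    (AtMost S c ↔ P ∧ ∀ t : ℝ, t ≠ 0 → m t ≤ 1) ∧
    (∀ B : ℝ, (∀ᶠ X : ℝ in atTop, S X ≤ B) → c ≤ B) ∧
    (P → ∃ M : ℝ, HasSum (fun t : ℝ => (m t : ℝ) * ((m t : ℝ) - 1) / t ^ 2) M ∧ 0 ≤ M ∧
      Tendsto S atTop (𝓝 (c + M))) := by
  have key : P → ∃ M : ℝ, HasSum (fun t : ℝ => (m t : ℝ) * ((m t : ℝ) - 1) / t ^ 2) M ∧ 0 ≤ M ∧
      Tendsto S atTop (𝓝 (c + M)) := by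
    intro hP
    obtain ⟨V, hV, hS⟩ := h1 hP
    have h4 := hV.sub (h3 hP)
    have h5 : (fun t : ℝ => ((m t : ℝ) / t) ^ 2 - (m t : ℝ) / t ^ 2) =
        fun t : ℝ => (m t : ℝ) * ((m t : ℝ) - 1) / t ^ 2 := by
      funext t
      rw [div_pow]
      ring
    rw [h5] at h4
    refine ⟨V - c, h4, h4.nonneg fun t => term_nonneg _ _, ?_⟩
    rwa [add_sub_cancel]
  refine ⟨⟨fun h => ?_, fun ⟨hP, hm⟩ => ?_⟩, fun B hB => ?_, key⟩
  · have hP : P := h2 ⟨c + 1, h 1 one_pos⟩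
    obtain ⟨M, hM, hM0, hS⟩ := key hP
    have h4 : c + M ≤ c := by
      refine le_of_forall_pos_le_add fun ε hε => ?_
      exact le_of_tendsto hS (h ε hε)
    have h5 : M = 0 := le_antisymm (by linarith) hM0
    rw [h5] at hM
    have h6 := (hasSum_zero_iff_of_nonneg fun t => term_nonneg _ _).1 hM
    refine ⟨hP, fun t ht => ?_⟩
    have h7 := congrFun h6 t
    rw [Pi.zero_apply, div_eq_zero_iff] at h7
    rcases h7 with h7 | h7
    · rcases mul_eq_zero.1 h7 with h8 | h8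
      · have : m t = 0 := by exact_mod_cast h8
        omega
      · have : (m t : ℝ) = 1 := by linarith
        have : m t = 1 := by exact_mod_cast this
        omega
    · exact absurd (pow_eq_zero_iff (by norm_num) |>.1 h7) ht
  · obtain ⟨M, hM, hM0, hS⟩ := key hP
    have h4 : (fun t : ℝ => (m t : ℝ) * ((m t : ℝ) - 1) / t ^ 2) = fun _ => 0 := by
      funext t
      by_cases ht : t = 0
      · rw [ht]
        simp
      · have h5 := hm t ht
        interval_cases h : m t <;> simp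
    rw [h4] at hM
    have h5 : M = 0 := hM.unique hasSum_zero
    rw [h5, add_zero] at hS
    intro ε hε
    exact (hS.eventually (gt_mem_nhds (show c < c + ε by linarith))).mono fun X hX => hX.le
  · obtain ⟨M, hM, hM0, hS⟩ := key (h2 ⟨B, hB⟩)
    have := le_of_tendsto hS hB
    linarith

variable {F Λ : ℂ → ℂ} {a : ℝ}

theorem CompOf.order (H : CompOf F Λ a) (hF : ∀ s : ℂ, a ≤ s.re → s ≠ a → AnalyticAt ℂ F s) {s : ℂ}
    (hs : a ≤ s.re) (hsa : s ≠ a) : analyticOrderAt F s = analyticOrderAt Λ s := by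
  obtain ⟨γ, h1, η, hη, h2⟩ := H.gam
  have ho : IsOpen {s : ℂ | a - η < s.re} := isOpen_lt continuous_const Complex.continuous_re
  have e : Λ =ᶠ[𝓝 s] γ * F := by
    filter_upwards [ho.mem_nhds (show a - η < s.re by linarith), isOpen_ne.mem_nhds hsa] with z h3 h4
    exact h2 z h3 h4
  rw [analyticOrderAt_congr e, analyticOrderAt_mul (h1 s hs).1 (hF s hs hsa),
    ((h1 s hs).1.analyticOrderAt_eq_zero).2 (h1 s hs).2, zero_add]

/-- the zeros under the Riemann hypothesis -/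
theorem CompOf.line (H : CompOf F Λ a) (hP : ∀ s : ℂ, a < s.re → F s ≠ 0) {s : ℂ} (hs : Λ s = 0) :
    s.re = a := by
  obtain ⟨γ, h1, η, hη, h2⟩ := H.gam
  obtain ⟨w, hw⟩ := H.fe
  have key : ∀ z : ℂ, a < z.re → Λ z ≠ 0 := by
    intro z hz h0
    have hza : z ≠ a := fun h => by
      rw [h, Complex.ofReal_re] at hz
      exact lt_irrefl _ hz
    rw [h2 z (by linarith) hza] at h0
    rcases mul_eq_zero.1 h0 with h | h
    · exact (h1 z hz.le).2 h
    · exact hP z hz h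
  rcases lt_trichotomy s.re a with hlt | heq | hgt
  · exfalso
    refine key (2 * a - s) ?_ (by rw [hw, hs, mul_zero])
    simp
    linarith
  · exact heq
  · exact absurd hs (key s hgt)

theorem CompOf.fin (H : CompOf F Λ a) (hP : ∀ s : ℂ, a < s.re → F s ≠ 0) (z : ℂ) :
    analyticOrderAt Λ z ≠ ⊤ := by
  intro h8
  rw [analyticOrderAt_eq_top] at h8
  have han : AnalyticOnNhd ℂ Λ Set.univ := fun z _ => H.diff.analyticAt z
  have h9 := han.eqOn_zero_of_preconnected_of_eventuallyEq_zero isPreconnected_univ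
    (Set.mem_univ z) h8
  have h10 : Λ ((a + 1 : ℝ) : ℂ) = 0 := h9 (Set.mem_univ _)
  have := H.line hP h10
  rw [Complex.ofReal_re] at this
  linarith

theorem CompOf.compl (H : CompOf F Λ a) (hP : ∀ s : ℂ, a < s.re → F s ≠ 0) :
    ∃ (K : ℝ) (w : ℂ), Compl (fun z => Λ (a + z)) (ordA Λ a) K w := by
  obtain ⟨K, hK⟩ := H.growth
  obtain ⟨w, hw⟩ := H.fe
  refine ⟨|K| * (1 + |a|) ^ (3 / 2 : ℝ), w, H.diff.comp (by fun_prop), fun z => ?_, ?_, fun z => ?_⟩
  · refine (hK _).trans (Real.exp_le_exp.2 ?_)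
    rw [mul_assoc, ← Real.mul_rpow (by positivity) (by positivity)]
    have h1 : 1 + ‖(a : ℂ) + z‖ ≤ (1 + |a|) * (1 + ‖z‖) := by
      have h2 := norm_add_le (a : ℂ) z
      rw [Complex.norm_real, Real.norm_eq_abs] at h2
      have h3 : 0 ≤ |a| * ‖z‖ := by positivity
      nlinarith
    calc K * (1 + ‖(a : ℂ) + z‖) ^ (3 / 2 : ℝ) ≤ |K| * (1 + ‖(a : ℂ) + z‖) ^ (3 / 2 : ℝ) :=
          mul_le_mul_of_nonneg_right (le_abs_self K) (by positivity)
      _ ≤ _ := mul_le_mul_of_nonneg_left (Real.rpow_le_rpow (by positivity) h1 (by norm_num))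
          (abs_nonneg K)
  · have h1 : AnalyticAt ℂ (fun s : ℂ => (a : ℂ) + s) 0 := by fun_prop
    have h2 : deriv (fun s : ℂ => (a : ℂ) + s) 0 ≠ 0 := by simp
    have h3 := analyticOrderAt_comp_of_deriv_ne_zero (f := Λ) h1 h2
    simp only [add_zero] at h3
    have h4 : analyticOrderAt Λ a = (ordA Λ a : ℕ) := (ENat.natCast_toNat (H.fin hP a)).symm
    rw [← h4, ← h3]
    rfl
  · have h1 := hw (a + z)
    have h2 : (2 : ℂ) * a - (a + z) = a + -z := by ring
    rw [h2] at h1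
    exact h1

/-- **The sharp bound.** -/
theorem CompOf.sharp (H : CompOf F Λ a) (hF : ∀ s : ℂ, a ≤ s.re → s ≠ a → AnalyticAt ℂ F s)
    {P : Prop} {S : ℝ → ℝ} (hP : P → ∀ s : ℂ, a < s.re → F s ≠ 0)
    (h1 : P → ∃ V : ℝ, HasSum (fun t : ℝ => ((multA F a t : ℝ) / t) ^ 2) V ∧
      Tendsto S atTop (𝓝 V))
    (h2 : (∃ B : ℝ, ∀ᶠ X : ℝ in atTop, S X ≤ B) → P) :
    (AtMost S (cA Λ a) ↔ P ∧ Simp Λ a) ∧
    (∀ B : ℝ, (∀ᶠ X : ℝ in atTop, S X ≤ B) → cA Λ a ≤ B) ∧
    (P → ∃ M : ℝ, HasSum (fun t : ℝ => (multA Λ a t : ℝ) * ((multA Λ a t : ℝ) - 1) / t ^ 2) M ∧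
      0 ≤ M ∧ Tendsto S atTop (𝓝 (cA Λ a + M))) := by
  have hmult : ∀ t : ℝ, t ≠ 0 → multA F a t = multA Λ a t := by
    intro t ht
    unfold multA
    rw [H.order hF (by simp) fun h => ht (by
      have := congrArg Complex.im h
      simpa using this)]
  have h1' : P → ∃ V : ℝ, HasSum (fun t : ℝ => ((multA Λ a t : ℝ) / t) ^ 2) V ∧
      Tendsto S atTop (𝓝 V) := by
    intro h
    obtain ⟨V, hV, hT⟩ := h1 h
    refine ⟨V, ?_, hT⟩
    have e : (fun t : ℝ => ((multA F a t : ℝ) / t) ^ 2) =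
        fun t : ℝ => ((multA Λ a t : ℝ) / t) ^ 2 := by
      funext t
      by_cases ht : t = 0
      · rw [ht]
        simp
      · rw [hmult t ht]
    rwa [e] at hV
  have hmu : ∀ t : ℝ, mu (fun z => Λ (a + z)) t = multA Λ a t := Pool.Agent.Q5.BP.mu_shift Λ a
  have htz : tz (fun z => Λ (a + z)) = fun t : ℝ => (multA Λ a t : ℝ) / t ^ 2 := by
    funext t
    unfold tz
    rw [hmu]
  have hcst : (cst (fun z => Λ (a + z)) (ordA Λ a)).re = cA Λ a := by
    unfold cst cA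
    have e : ∀ n : ℕ, iteratedDeriv n (fun z => Λ (a + z)) 0 = iteratedDeriv n Λ a := by
      intro n
      rw [iteratedDeriv_comp_const_add]
      simp
    rw [e, e]
  have h3 : P → HasSum (fun t : ℝ => (multA Λ a t : ℝ) / t ^ 2) (cA Λ a) := by
    intro h
    obtain ⟨K, w, hC⟩ := H.compl (hP h)
    obtain ⟨c, h4, h5⟩ := hC.sum fun v _ hv => by
      have := H.line (hP h) hv
      simpa using this
    have h6 : c = cA Λ a := by rw [← hcst, h4, Complex.ofReal_re]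
    rw [← h6]
    rwa [htz] at h5
  obtain ⟨k1, k2, k3⟩ := simple_iff (m := multA Λ a) h1' h2 h3
  refine ⟨?_, k2, k3⟩
  rw [k1]
  refine and_congr_right fun h => ?_
  constructor
  · intro hm s hs h0
    have h4 : s = a + (s.im : ℂ) * I := by
      apply Complex.ext
      · simp [H.line (hP h) h0]
      · simp
    have h5 : s.im ≠ 0 := fun h5 => hs (by rw [h4, h5]; simp)
    have h6 := hm s.im h5
    unfold multA at h6
    rw [← h4] at h6
    rw [simple_order H.diff h0]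
    have h7 : analyticOrderAt Λ s ≠ 0 := by
      rw [(H.diff.analyticAt s).analyticOrderAt_ne_zero]
      exact h0
    obtain ⟨n, hn⟩ := ENat.ne_top_iff_exists.1 (H.fin (hP h) s)
    rw [← hn] at h6 h7 ⊢
    have h8 : n ≤ 1 := by simpa using h6
    have h9 : n ≠ 0 := fun h => h7 (by rw [h]; rfl)
    have h10 : n = 1 := by omega
    rw [h10]
    rfl
  · intro hS t ht
    by_cases h0 : Λ (a + t * I) = 0
    · have h4 := (simple_order H.diff h0).1 (hS _ (fun h4 => ht (by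
        have := congrArg Complex.im h4
        simpa using this)) h0)
      unfold multA
      rw [h4]
      exact le_rfl
    · unfold multA
      rw [((H.diff.analyticAt _).analyticOrderAt_eq_zero).2 h0]
      exact Nat.zero_le 1

end Pool.Agent.Q5.SZ
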