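import Pool.Agent.Q5.SZ.Had

/-!
# The sum over the zeros of a completed `L`-function
-/

set_option autoImplicit false

open Filter Topology Set Complex Metric

namespace Pool.Agent.Q5.SZ

open Pool.Agent.Q5.BP (mu)

/-- the factor `w ^ n` -/
theorem split_zero (n : ℕ) : ∀ {F : ℂ → ℂ}, Differentiable ℂ F → analyticOrderAt F 0 = n →
    ∃ G : ℂ → ℂ, Differentiable ℂ G ∧ (∀ w, F w = w ^ n * G w) ∧ G 0 ≠ 0 := by
  induction n with
  | zero =>
    intro F hF hn
    refine ⟨F, hF, fun w => by simp, ?_⟩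
    exact ((hF.analyticAt 0).analyticOrderAt_eq_zero).1 (by simpa using hn)
  | succ n ih =>
    intro F hF hn
    have hFu : F 0 = 0 := by
      by_contra h
      have := ((hF.analyticAt 0).analyticOrderAt_eq_zero).2 h
      rw [this] at hn
      have h2 : ((n + 1 : ℕ) : ℕ∞) ≠ 0 := by simp
      exact h2 hn.symm
    have hds : Differentiable ℂ (dslope F 0) := by
      rw [← differentiableOn_univ]
      exact (Complex.differentiableOn_dslope Filter.univ_mem).2 hF.differentiableOn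
    have hds' : ∀ w, F w = w * dslope F 0 w := by
      intro w
      have := sub_smul_dslope F 0 w
      rw [hFu, sub_zero, sub_zero, smul_eq_mul] at this
      exact this.symm
    have hord : analyticOrderAt F 0 = 1 + analyticOrderAt (dslope F 0) 0 := by
      have e : F = (fun w => w) * dslope F 0 := funext hds'
      have h1 : AnalyticAt ℂ (fun w : ℂ => w) 0 := by fun_prop
      conv_lhs => rw [e]
      rw [analyticOrderAt_mul h1 (hds.analyticAt 0)]
      congr 1
      have h2 : ((1 : ℕ) : ℕ∞) = 1 := rfl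
      rw [← h2, h1.analyticOrderAt_eq_natCast]
      refine ⟨fun _ => 1, by fun_prop, one_ne_zero, ?_⟩
      refine Eventually.of_forall fun w => ?_
      simp
    have hn' : analyticOrderAt (dslope F 0) 0 = n := by
      rw [hord] at hn
      have h4 : analyticOrderAt (dslope F 0) 0 ≠ ⊤ := by
        intro h5
        rw [h5, add_top] at hn
        exact ENat.natCast_ne_top _ hn.symm
      obtain ⟨m, hm⟩ := ENat.ne_top_iff_exists.1 h4
      rw [← hm] at hn ⊢
      have h5 : 1 + m = n + 1 := by exact_mod_cast hn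
      have h6 : m = n := by omega
      rw [h6]
    obtain ⟨G', h1, h2, h3⟩ := ih hds hn'
    refine ⟨G', h1, fun w => ?_, h3⟩
    rw [hds' w, h2 w, pow_succ']
    ring

theorem iter_mul_id {h : ℂ → ℂ} (hh : Differentiable ℂ h) (n : ℕ) : ∀ z : ℂ,
    iteratedDeriv (n + 1) (fun w => w * h w) z =
      z * iteratedDeriv (n + 1) h z + (n + 1) * iteratedDeriv n h z := by
  have hd : ∀ k : ℕ, Differentiable ℂ (iteratedDeriv k h) := fun k =>
    (hh.contDiff (n := ((k + 1 : ℕ) : WithTop ℕ∞))).differentiable_iteratedDeriv k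
      (by exact_mod_cast Nat.lt_succ_self k)
  induction n with
  | zero =>
    intro z
    rw [zero_add, iteratedDeriv_one, iteratedDeriv_one, iteratedDeriv_zero]
    have h1 := (hasDerivAt_id z).mul (hh z).hasDerivAt
    have h2 : deriv (fun w => w * h w) z = 1 * h z + z * deriv h z := h1.deriv
    rw [h2]
    push_cast
    ring
  | succ n ih =>
    intro z
    rw [iteratedDeriv_succ]
    have e : iteratedDeriv (n + 1) (fun w => w * h w) = fun z =>
        z * iteratedDeriv (n + 1) h z + (n + 1) * iteratedDeriv n h z := funext ih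
    rw [e]
    have h1 : HasDerivAt (fun z => z * iteratedDeriv (n + 1) h z)
        (1 * iteratedDeriv (n + 1) h z + z * iteratedDeriv (n + 1 + 1) h z) z := by
      have h3 : HasDerivAt (iteratedDeriv (n + 1) h) (iteratedDeriv (n + 1 + 1) h z) z := by
        rw [iteratedDeriv_succ (n := n + 1)]
        exact (hd (n + 1) z).hasDerivAt
      exact (hasDerivAt_id z).mul h3
    have h2 : HasDerivAt (fun z => ((n : ℂ) + 1) * iteratedDeriv n h z)
        (((n : ℂ) + 1) * iteratedDeriv (n + 1) h z) z := by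
      have h3 : HasDerivAt (iteratedDeriv n h) (iteratedDeriv (n + 1) h z) z := by
        rw [iteratedDeriv_succ]
        exact (hd n z).hasDerivAt
      exact h3.const_mul _
    have h4 : deriv (fun z => z * iteratedDeriv (n + 1) h z + (n + 1) * iteratedDeriv n h z) z = _ :=
      (h1.add h2).deriv
    rw [h4]
    push_cast
    ring

theorem iter_pow (ρ k : ℕ) {h : ℂ → ℂ} (hh : Differentiable ℂ h) :
    (k.factorial : ℂ) * iteratedDeriv (ρ + k) (fun w => w ^ ρ * h w) 0 =
      ((ρ + k).factorial : ℂ) * iteratedDeriv k h 0 := by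
  induction ρ with
  | zero => simp
  | succ ρ ih =>
    have e : (fun w : ℂ => w ^ (ρ + 1) * h w) = fun w => w * (w ^ ρ * h w) := by
      funext w
      rw [pow_succ']
      ring
    have hd : Differentiable ℂ fun w : ℂ => w ^ ρ * h w := by fun_prop
    rw [e, show ρ + 1 + k = (ρ + k) + 1 by ring, iter_mul_id hd, zero_mul, zero_add,
      Nat.factorial_succ]
    push_cast
    linear_combination ((ρ : ℂ) + k + 1) * ih

/-- `2 Φ^(ρ+2)(0) / ((ρ+1) (ρ+2) Φ^(ρ)(0))` -/
noncomputable def cst (Φ : ℂ → ℂ) (ρ : ℕ) : ℂ :=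
  2 * iteratedDeriv (ρ + 2) Φ 0 / ((ρ + 1) * (ρ + 2) * iteratedDeriv ρ Φ 0)

theorem cst_eq {Φ g : ℂ → ℂ} (hg : Differentiable ℂ g) (h0 : g 0 ≠ 0) {ρ : ℕ}
    (h : ∀ w, Φ w = w ^ ρ * g w) : cst Φ ρ = iteratedDeriv 2 g 0 / g 0 := by
  have e : Φ = fun w => w ^ ρ * g w := funext h
  have h1 := iter_pow ρ 2 hg
  have h2 := iter_pow ρ 0 hg
  rw [← e] at h1 h2
  rw [add_zero, Nat.factorial_zero, iteratedDeriv_zero, Nat.cast_one, one_mul] at h2
  rw [Nat.factorial_two] at h1
  have hf : ((ρ + 2).factorial : ℂ) = (ρ + 2) * (ρ + 1) * (ρ.factorial : ℂ) := by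
    rw [Nat.factorial_succ, Nat.factorial_succ]
    push_cast
    ring
  have hρ : (ρ.factorial : ℂ) ≠ 0 := by exact_mod_cast ρ.factorial_ne_zero
  have h3 : (ρ : ℂ) + 1 ≠ 0 := by exact_mod_cast Nat.succ_ne_zero ρ
  have h4 : (ρ : ℂ) + 2 ≠ 0 := by exact_mod_cast Nat.succ_ne_zero (ρ + 1)
  unfold cst
  rw [h2, div_eq_div_iff (mul_ne_zero (mul_ne_zero h3 h4) (mul_ne_zero hρ h0)) h0]
  rw [hf] at h1
  push_cast at h1
  linear_combination g 0 * h1

/-- a completed function in the coordinate with centre `0`: entire, of order at most `3/2`, with a functional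
equation -/
structure Compl (Φ : ℂ → ℂ) (ρ : ℕ) (K : ℝ) (ε : ℂ) : Prop where
  diff : Differentiable ℂ Φ
  growth : ∀ w, ‖Φ w‖ ≤ Real.exp (K * (1 + ‖w‖) ^ (3 / 2 : ℝ))
  ord : analyticOrderAt Φ 0 = ρ
  fe : ∀ w, Φ (-w) = ε * Φ w

variable {Φ g : ℂ → ℂ} {ρ : ℕ} {K : ℝ} {ε : ℂ}

theorem Compl.quot (H : Compl Φ ρ K ε) : ∃ g : ℂ → ℂ, Differentiable ℂ g ∧
    (∀ w, Φ w = w ^ ρ * g w) ∧ g 0 ≠ 0 ∧ (∀ w, g (-w) = g w) ∧
    ∃ K' : ℝ, 0 ≤ K' ∧ ∀ w, ‖g w‖ ≤ Real.exp (K' * (1 + ‖w‖) ^ (3 / 2 : ℝ)) := by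
  obtain ⟨g, hg, hΦg, h0⟩ := split_zero ρ H.diff H.ord
  have hfe : ∀ w, w ≠ 0 → g (-w) = (ε * (-1) ^ ρ) * g w := by
    intro w hw
    have h1 := H.fe w
    rw [hΦg w, hΦg (-w)] at h1
    have h2 : (-w) ^ ρ = (-1) ^ ρ * w ^ ρ := by rw [← mul_pow, neg_one_mul]
    rw [h2] at h1
    have h3 : w ^ ρ ≠ 0 := pow_ne_zero _ hw
    have h4 : ((-1 : ℂ) ^ ρ) * (-1) ^ ρ = 1 := by
      rw [← mul_pow]
      norm_num
    apply mul_left_cancel₀ h3
    calc w ^ ρ * g (-w) = ((-1 : ℂ) ^ ρ * (-1) ^ ρ) * (w ^ ρ * g (-w)) := by rw [h4, one_mul]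
      _ = (-1) ^ ρ * ((-1) ^ ρ * w ^ ρ * g (-w)) := by ring
      _ = (-1) ^ ρ * (ε * (w ^ ρ * g w)) := by rw [h1]
      _ = _ := by ring
  have hc : ε * (-1) ^ ρ = 1 := by
    have h1 : Tendsto (fun w : ℂ => g (-w)) (𝓝[≠] 0) (𝓝 (g 0)) := by
      have : Continuous fun w : ℂ => g (-w) := hg.continuous.comp continuous_neg
      have h2 := this.tendsto 0
      simp only [neg_zero] at h2
      exact h2.mono_left nhdsWithin_le_nhds
    have h2 : Tendsto (fun w : ℂ => (ε * (-1) ^ ρ) * g w) (𝓝[≠] 0) (𝓝 ((ε * (-1) ^ ρ) * g 0)) :=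
      ((hg.continuous.tendsto 0).mono_left nhdsWithin_le_nhds).const_mul _
    have h3 : Tendsto (fun w : ℂ => g (-w)) (𝓝[≠] 0) (𝓝 ((ε * (-1) ^ ρ) * g 0)) := by
      refine h2.congr' ?_
      filter_upwards [self_mem_nhdsWithin] with w hw
      exact (hfe w hw).symm
    have h4 := tendsto_nhds_unique h1 h3
    have h5 : (ε * (-1) ^ ρ - 1) * g 0 = 0 := by linear_combination -h4
    rcases mul_eq_zero.1 h5 with h | h
    · linear_combination h
    · exact absurd h h0
  refine ⟨g, hg, hΦg, h0, fun w => ?_, ?_⟩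
  · by_cases hw : w = 0
    · rw [hw, neg_zero]
    · rw [hfe w hw, hc, one_mul]
  · obtain ⟨B, hB⟩ := (isCompact_closedBall (0 : ℂ) 1).exists_bound_of_continuousOn
      hg.continuous.continuousOn
    refine ⟨|K| + |Real.log (|B| + 1)|, by positivity, fun w => ?_⟩
    have h1 : (1 : ℝ) ≤ (1 + ‖w‖) ^ (3 / 2 : ℝ) :=
      Real.one_le_rpow (by linarith [norm_nonneg w]) (by norm_num)
    have h2 : |K| + |Real.log (|B| + 1)| ≤
        (|K| + |Real.log (|B| + 1)|) * (1 + ‖w‖) ^ (3 / 2 : ℝ) :=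
      le_mul_of_one_le_right (by positivity) h1
    rcases le_total ‖w‖ 1 with h | h
    · have h3 : ‖g w‖ ≤ |B| + 1 := by
        have := hB w (by rwa [mem_closedBall_zero_iff])
        have := le_abs_self B
        linarith
      refine h3.trans ?_
      rw [← Real.log_le_iff_le_exp (by positivity)]
      have := le_abs_self (Real.log (|B| + 1))
      have := abs_nonneg K
      linarith
    · have h3 : ‖g w‖ ≤ ‖Φ w‖ := by
        rw [hΦg w, norm_mul, norm_pow]
        exact le_mul_of_one_le_left (norm_nonneg _) (one_le_pow₀ h)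
      refine h3.trans ((H.growth w).trans (Real.exp_le_exp.2 ?_))
      refine mul_le_mul_of_nonneg_right ?_ (by linarith)
      have := le_abs_self K
      have := abs_nonneg (Real.log (|B| + 1))
      linarith

theorem mu_quot (hg : Differentiable ℂ g) (h : ∀ w, Φ w = w ^ ρ * g w) {t : ℝ} (ht : t ≠ 0) :
    mu Φ t = mu g t := by
  unfold mu
  have e : Φ = (fun w => w ^ ρ) * g := funext h
  have h1 : AnalyticAt ℂ (fun w : ℂ => w ^ ρ) (t * I) := by fun_prop
  rw [e, analyticOrderAt_mul h1 (hg.analyticAt _)]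
  have h2 : analyticOrderAt (fun w : ℂ => w ^ ρ) (t * I) = 0 := by
    rw [h1.analyticOrderAt_eq_zero]
    exact pow_ne_zero _ (mul_ne_zero (by exact_mod_cast ht) I_ne_zero)
  rw [h2, zero_add]

theorem tz_quot (hg : Differentiable ℂ g) (h : ∀ w, Φ w = w ^ ρ * g w) :
    tz Φ = tz g := by
  funext t
  unfold tz
  by_cases ht : t = 0
  · rw [ht]
    simp
  · rw [mu_quot hg h ht]

theorem even_deriv (hg : Differentiable ℂ g) (he : ∀ w, g (-w) = g w) : deriv g 0 = 0 := by
  have h1 : HasDerivAt (fun w => g (-w)) (deriv g (-0) * -1) 0 :=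
    HasDerivAt.comp (0 : ℂ) (h₂ := g) (h := fun w => -w) (hg _).hasDerivAt (hasDerivAt_neg (0 : ℂ))
  have h2 : (fun w => g (-w)) = g := funext he
  rw [h2, neg_zero] at h1
  have h3 := h1.deriv
  have h4 : (2 : ℂ) * deriv g 0 = 0 := by linear_combination h3
  rcases mul_eq_zero.1 h4 with h | h
  · norm_num at h
  · exact h

theorem log_second (hg : Differentiable ℂ g) (h0 : g 0 ≠ 0) (he : ∀ w, g (-w) = g w) :
    deriv (fun z => deriv g z / g z) 0 = iteratedDeriv 2 g 0 / g 0 := by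
  have h1 := even_deriv hg he
  have h2 : HasDerivAt (deriv g) (deriv (deriv g) 0) 0 :=
    ((hg.contDiff (n := 2)).differentiable_deriv_two 0).hasDerivAt
  have h3 : deriv (fun z => deriv g z / g z) 0 = _ := (h2.div (hg 0).hasDerivAt h0).deriv
  rw [h3, h1, iteratedDeriv_succ, iteratedDeriv_one]
  field_simp
  ring

/-- **The sum over the zeros of a completed function.** -/
theorem Compl.sum (H : Compl Φ ρ K ε) (hz : ∀ w, w ≠ 0 → Φ w = 0 → w.re = 0) :
    ∃ c : ℝ, cst Φ ρ = c ∧ HasSum (tz Φ) c := by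
  obtain ⟨g, hg, hΦg, h0, he, K', hK', hgr⟩ := H.quot
  obtain ⟨c, h1, h2⟩ := zeros_sum hg h0 hK' hgr fun w hw => by
    by_cases hw0 : w = 0
    · rw [hw0, Complex.zero_re]
    · exact hz w hw0 (by rw [hΦg, hw, mul_zero])
  refine ⟨c, ?_, ?_⟩
  · rw [cst_eq hg h0 hΦg, ← log_second hg h0 he]
    exact h1
  · rwa [tz_quot hg hΦg]

theorem no_zeros_lin (hg : Differentiable ℂ g) {K : ℝ} (hK : 0 ≤ K)
    (hgr : ∀ w, ‖g w‖ ≤ Real.exp (K * (1 + ‖w‖) ^ (3 / 2 : ℝ))) (hn : ∀ w, g w ≠ 0) (z : ℂ) :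
    deriv (fun z => deriv g z / g z) z = 0 := by
  set f : ℂ → ℂ := fun w => g (w + z) with hf
  have hfd : Differentiable ℂ f := hg.comp (differentiable_id.add_const z)
  have hd : ∀ w, deriv f w = deriv g (w + z) := fun w => by
    rw [hf]
    exact deriv_comp_add_const g z w
  obtain ⟨c, h1, h2⟩ := zeros_sum hfd (hn _) (K := K * (1 + ‖z‖) ^ (3 / 2 : ℝ)) (by positivity)
    (fun w => by
      refine (hgr _).trans (Real.exp_le_exp.2 ?_)
      rw [mul_assoc, ← Real.mul_rpow (by positivity) (by positivity)]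
      refine mul_le_mul_of_nonneg_left (Real.rpow_le_rpow (by positivity) ?_ (by norm_num)) hK
      have h3 := norm_add_le w z
      have h4 : 0 ≤ ‖w‖ * ‖z‖ := by positivity
      nlinarith) (fun w hw => absurd hw (hn _))
  have h3 : tz f = fun _ => 0 := funext fun t => tz_zero hfd (hn _)
  rw [h3] at h2
  have h4 : c = 0 := h2.unique hasSum_zero
  have h5 : (fun w => deriv f w / f w) = fun w => (fun z => deriv g z / g z) (w + z) := by
    funext w
    simp only [hd]
    rfl
  have h6 := deriv_comp_add_const (fun z => deriv g z / g z) z 0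
  rw [h5, h4, Complex.ofReal_zero] at h1
  rw [zero_add] at h6
  rw [← h6]
  exact h1

/-- the sum is positive unless the function is a monomial -/
theorem Compl.pos (H : Compl Φ ρ K ε) (hz : ∀ w, w ≠ 0 → Φ w = 0 → w.re = 0) {c : ℝ}
    (hc : HasSum (tz Φ) c) (hm : ¬ ∃ a : ℂ, ∀ w, Φ w = a * w ^ ρ) : 0 < c := by
  have h0 : 0 ≤ c := hc.nonneg (tz_nonneg Φ)
  refine lt_of_le_of_ne h0 fun hc0 => hm ?_
  rw [← hc0] at hc
  have h1 := (hasSum_zero_iff_of_nonneg (tz_nonneg Φ)).1 hc
  obtain ⟨g, hg, hΦg, h0, he, K', hK', hgr⟩ := H.quot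
  rw [tz_quot hg hΦg] at h1
  have hn : ∀ w, g w ≠ 0 := by
    intro w hw
    have hw0 : w ≠ 0 := fun h => h0 (by rw [h] at hw; exact hw)
    have h2 := hz w hw0 (by rw [hΦg, hw, mul_zero])
    have h3 : w = (w.im : ℂ) * I := by
      apply Complex.ext
      · simp [h2]
      · simp
    have h4 : w.im ≠ 0 := fun h => hw0 (by rw [h3, h]; simp)
    have h5 := congrFun h1 w.im
    unfold tz mu at h5
    rw [← h3, Pi.zero_apply, div_eq_zero_iff] at h5
    rcases h5 with h5 | h5
    · have h6 : (analyticOrderAt g w).toNat = 0 := by exact_mod_cast h5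
      have h7 := ord_ne_top hg h0 w
      have h8 : analyticOrderAt g w = 0 := by
        rcases ENat.toNat_eq_zero.1 h6 with h | h
        · exact h
        · exact absurd h h7
      exact ((hg.analyticAt w).analyticOrderAt_eq_zero).1 h8 hw
    · exact h4 (pow_eq_zero_iff (by norm_num) |>.1 h5)
  have hd : Differentiable ℂ fun z => deriv g z / g z :=
    Differentiable.div ((hg.contDiff (n := 2)).differentiable_deriv_two) hg hn
  have h2 : ∀ z, deriv g z / g z = 0 := by
    intro z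
    have h3 := is_const_of_deriv_eq_zero hd (no_zeros_lin hg hK' hgr hn) z 0
    have h4 : deriv g z / g z = deriv g 0 / g 0 := h3
    rw [h4, even_deriv hg he, zero_div]
  have h3 : ∀ z, deriv g z = 0 := fun z => by
    rcases div_eq_zero_iff.1 (h2 z) with h | h
    · exact h
    · exact absurd h (hn z)
  refine ⟨g 0, fun w => ?_⟩
  rw [hΦg w, is_const_of_deriv_eq_zero hg h3 w 0, mul_comm]

end Pool.Agent.Q5.SZ
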