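import Pool.Agent.TH270.MS.GrowthLeft
import Pool.Agent.Q5.SZ.Comp

/-!
# The completed `L`-function of a newform of weight `2`
-/

set_option autoImplicit false

open MeasureTheory Filter Topology Set Complex
open CongruenceSubgroup
open scoped MatrixGroups

namespace Pool.Agent.Q5.SZ

open Pool.Agent.TH270.MS (growth_left)
open Pool.Agent.TH270.MS.GrowL (Lam norm_Gamma_le mellin_strip)

variable {N : ℕ} [NeZero N] {f : CuspForm (Gamma0 N : Subgroup (GL (Fin 2) ℝ)) 2} {w : ℝ}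

/-- the Fricke involution -/
def Frk (f : CuspForm (Gamma0 N : Subgroup (GL (Fin 2) ℝ)) 2) (w : ℝ) : Prop :=
  ∀ τ τ' : UpperHalfPlane, (τ' : ℂ) * ((N : ℂ) * (τ : ℂ)) = -1 →
    f τ' = -(w : ℂ) * (N : ℂ) * (τ : ℂ) ^ 2 * f τ

theorem im_fe (hf : Frk f w) {t : ℝ} (ht : 0 < t) :
    f (UpperHalfPlane.ofComplex (I * ((N * t)⁻¹ : ℝ))) =
      (w * N : ℂ) * ((t : ℂ) ^ (2 : ℂ) * f (UpperHalfPlane.ofComplex (I * t))) := by
  have hN : (0 : ℝ) < N := by exact_mod_cast Nat.pos_of_ne_zero (NeZero.ne N)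
  have h1 : 0 < (I * (t : ℂ)).im := by simpa using ht
  have h2 : 0 < (I * (((N * t)⁻¹ : ℝ) : ℂ)).im := by
    rw [I_mul_im, Complex.ofReal_re]
    positivity
  have h3 := hf (UpperHalfPlane.ofComplex (I * t)) (UpperHalfPlane.ofComplex (I * ((N * t)⁻¹ : ℝ))) (by
    rw [UpperHalfPlane.ofComplex_apply_of_im_pos h1, UpperHalfPlane.ofComplex_apply_of_im_pos h2]
    show I * (((N * t)⁻¹ : ℝ) : ℂ) * (N * (I * t)) = -1
    have hNc : (N : ℂ) ≠ 0 := by exact_mod_cast hN.ne'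
    have htc : (t : ℂ) ≠ 0 := by exact_mod_cast ht.ne'
    push_cast
    field_simp
    exact I_sq)
  rw [h3, UpperHalfPlane.ofComplex_apply_of_im_pos h1]
  have h4 : ((t : ℂ) ^ (2 : ℂ)) = (t : ℂ) ^ 2 := by
    rw [← Complex.cpow_natCast]
    norm_num
  rw [h4]
  show -(w : ℂ) * N * (I * t) ^ 2 * _ = _
  rw [mul_pow, I_sq]
  ring

theorem lam_mellin (s : ℂ) : Lam f s = mellin (fun t : ℝ => f (UpperHalfPlane.ofComplex (I * t))) s := by
  have h : Lam f = mellin (fun t : ℝ => f (UpperHalfPlane.ofComplex (I * t))) :=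
    CuspForm.Λ_eq_mellin (by norm_num) f
  rw [h]

theorem lam_diff (f : CuspForm (Gamma0 N : Subgroup (GL (Fin 2) ℝ)) 2) : Differentiable ℂ (Lam f) :=
  CuspForm.differentiable_Λ (by norm_num) f

theorem lam_fe (hf : Frk f w) (s : ℂ) :
    (N : ℂ) ^ (-s) * Lam f (-s) = (w * N : ℂ) * Lam f (s + 2) := by
  have hN : (0 : ℝ) < N := by exact_mod_cast Nat.pos_of_ne_zero (NeZero.ne N)
  set h : ℝ → ℂ := fun t => f (UpperHalfPlane.ofComplex (I * t)) with hh
  have e1 := mellin_comp_mul_left (fun u : ℝ => h u⁻¹) s hN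
  rw [mellin_comp_inv] at e1
  have e2 : mellin (fun t : ℝ => (fun u : ℝ => h u⁻¹) ((N : ℝ) * t)) s =
      mellin (fun t : ℝ => (w * N : ℂ) • ((t : ℂ) ^ (2 : ℂ) • h t)) s := by
    unfold mellin
    refine setIntegral_congr_fun measurableSet_Ioi fun t ht => ?_
    have ht0 : 0 < t := ht
    simp only
    congr 1
    exact im_fe hf ht0
  rw [e2, mellin_const_smul, mellin_cpow_smul] at e1
  rw [lam_mellin, lam_mellin]
  rw [smul_eq_mul, smul_eq_mul] at e1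
  exact e1.symm

/-- the completed function with the conductor -/
noncomputable def LamN (f : CuspForm (Gamma0 N : Subgroup (GL (Fin 2) ℝ)) 2) (s : ℂ) : ℂ :=
  ((√(N : ℝ) : ℝ) : ℂ) ^ s * Lam f s

theorem lamN_diff (f : CuspForm (Gamma0 N : Subgroup (GL (Fin 2) ℝ)) 2) :
    Differentiable ℂ (LamN f) := by
  have hN : (0 : ℝ) < N := by exact_mod_cast Nat.pos_of_ne_zero (NeZero.ne N)
  have h1 : ((√(N : ℝ) : ℝ) : ℂ) ≠ 0 := by exact_mod_cast (Real.sqrt_pos.2 hN).ne'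
  have h2 : Differentiable ℂ fun s : ℂ => ((√(N : ℝ) : ℝ) : ℂ) ^ s := fun s =>
    (hasDerivAt_id s).differentiableAt.const_cpow (Or.inl h1)
  exact h2.mul (lam_diff f)

theorem lamN_fe (hf : Frk f w) (hw : w = 1 ∨ w = -1) (s : ℂ) : LamN f (2 - s) = w * LamN f s := by
  have hN : (0 : ℝ) < N := by exact_mod_cast Nat.pos_of_ne_zero (NeZero.ne N)
  have hs : 0 < √(N : ℝ) := Real.sqrt_pos.2 hN
  have hsc : ((√(N : ℝ) : ℝ) : ℂ) ≠ 0 := by exact_mod_cast hs.ne'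
  have hww : (w : ℂ) * w = 1 := by rcases hw with h | h <;> simp [h]
  have h1 := lam_fe hf (-s)
  rw [neg_neg, neg_add_eq_sub] at h1
  -- `N ^ s Λ(s) = w N Λ(2 - s)`
  have h2 : (N : ℂ) = ((√(N : ℝ) : ℝ) : ℂ) * ((√(N : ℝ) : ℝ) : ℂ) := by
    have := Real.mul_self_sqrt hN.le
    exact_mod_cast this.symm
  have h3 : (N : ℂ) ^ s = ((√(N : ℝ) : ℝ) : ℂ) ^ s * ((√(N : ℝ) : ℝ) : ℂ) ^ s := by
    rw [h2, Complex.mul_cpow_ofReal_nonneg hs.le hs.le]
  unfold LamN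
  have h4 : ((√(N : ℝ) : ℝ) : ℂ) ^ (2 - s) =
      ((√(N : ℝ) : ℝ) : ℂ) * ((√(N : ℝ) : ℝ) : ℂ) / ((√(N : ℝ) : ℝ) : ℂ) ^ s := by
    rw [Complex.cpow_sub _ _ hsc]
    congr 1
    have : (2 : ℂ) = ((2 : ℕ) : ℂ) := by norm_num
    rw [this, Complex.cpow_natCast]
    ring
  have h5 : ((√(N : ℝ) : ℝ) : ℂ) ^ s ≠ 0 := fun h => hsc ((Complex.cpow_eq_zero_iff _ _).1 h).1
  rw [h4, ← h2]
  rw [h3] at h1
  field_simp
  calc (N : ℂ) * Lam f (2 - s) = ((w : ℂ) * w) * (N * Lam f (2 - s)) := by rw [hww, one_mul]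
    _ = w * (w * N * Lam f (2 - s)) := by ring
    _ = _ := by
      rw [← h1]
      ring

/-- the `L`-series -/
noncomputable def Lf (f : CuspForm (Gamma0 N : Subgroup (GL (Fin 2) ℝ)) 2) : ℂ → ℂ :=
  ModularForm.L (k := 2) (by norm_num) f

theorem lf_diff (f : CuspForm (Gamma0 N : Subgroup (GL (Fin 2) ℝ)) 2) : Differentiable ℂ (Lf f) :=
  CuspForm.differentiable_L (by norm_num) f

theorem lf_hasSum (f : CuspForm (Gamma0 N : Subgroup (GL (Fin 2) ℝ)) 2) {s : ℂ} (hs : 2 < s.re) :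
    HasSum (fun n : ℕ => (UpperHalfPlane.qExpansion 1 f).coeff n / (n : ℂ) ^ s) (Lf f s) := by
  have hk : (0 : ℤ) < 2 := by norm_num
  have hw : Subgroup.strictWidthInfty (Gamma0 N : Subgroup (GL (Fin 2) ℝ)) = 1 :=
    CongruenceSubgroup.strictWidthInfty_Gamma0 N
  have h := CuspForm.hasSum_L hk f (s := s) (by norm_num; exact hs)
  rw [hw] at h
  have h2 : HasSum (fun n : ℕ => (UpperHalfPlane.qExpansion 1 f).coeff n / (n : ℂ) ^ s)
      (ModularForm.L hk f s) := by simpa using h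
  exact h2

theorem lf_growth (f : CuspForm (Gamma0 N : Subgroup (GL (Fin 2) ℝ)) 2) :
    ∃ (C : ℝ) (κ : ℕ), ∀ s : ℂ, 1 / 2 < s.re → ‖Lf f s‖ ≤ C * (1 + ‖s‖) ^ κ := by
  obtain ⟨G, hG, hGL, C, κ, hb⟩ := growth_left f
  have e : G = Lf f := by
    have hV : IsOpen {z : ℂ | 3 < z.re} := isOpen_lt continuous_const Complex.continuous_re
    have h4 : (4 : ℂ) ∈ {z : ℂ | 3 < z.re} := by
      show (3 : ℝ) < (4 : ℂ).re
      norm_num
    refine AnalyticOnNhd.eq_of_eventuallyEq (fun z _ => hG.analyticAt z)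
      (fun z _ => (lf_diff f).analyticAt z) (z₀ := 4) ?_
    filter_upwards [hV.mem_nhds h4] with s hs
    have hs' : 3 < s.re := hs
    rw [hGL s hs', ← (lf_hasSum f (s := s) (by linarith)).tsum_eq, LSeries]
    refine tsum_congr fun n => ?_
    rcases Nat.eq_zero_or_pos n with h0 | h0
    · subst h0
      have hs0 : s ≠ 0 := by
        intro h
        rw [h] at hs'
        norm_num at hs'
      simp [Complex.zero_cpow hs0]
    · rw [LSeries.term_of_ne_zero h0.ne']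
  rw [e] at hb
  exact ⟨C, κ, hb⟩

theorem lamN_L (f : CuspForm (Gamma0 N : Subgroup (GL (Fin 2) ℝ)) 2) {s : ℂ} (hs : 0 < s.re) :
    LamN f s = ((√(N : ℝ) / (2 * Real.pi) : ℝ) : ℂ) ^ s * Complex.Gamma s * Lf f s := by
  have hN : (0 : ℝ) < N := by exact_mod_cast Nat.pos_of_ne_zero (NeZero.ne N)
  have hq : 0 < √(N : ℝ) := Real.sqrt_pos.2 hN
  have hπ : 0 < 2 * Real.pi := by positivity
  have h1 : ((√(N : ℝ) : ℝ) : ℂ) ^ s =
      ((√(N : ℝ) / (2 * Real.pi) : ℝ) : ℂ) ^ s * ((2 * Real.pi : ℝ) : ℂ) ^ s := by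
    rw [← Complex.mul_cpow_ofReal_nonneg (by positivity) hπ.le, ← Complex.ofReal_mul,
      div_mul_cancel₀ _ hπ.ne']
  have hG := Complex.Gamma_ne_zero_of_re_pos hs
  have hπc : ((2 * Real.pi : ℝ) : ℂ) ^ s ≠ 0 := fun h => by
    have := ((Complex.cpow_eq_zero_iff _ _).1 h).1
    exact hπ.ne' (by exact_mod_cast this)
  have h2 : Lf f s = Lam f s * (2 / Gammaℂ s) := rfl
  rw [h2, Complex.Gammaℂ_def]
  unfold LamN
  rw [h1]
  have h3 : ((2 : ℂ) * Real.pi) ^ (-s) = (((2 * Real.pi : ℝ) : ℂ) ^ s)⁻¹ := by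
    rw [Complex.cpow_neg]
    push_cast
    rfl
  rw [h3]
  field_simp

theorem lf_shift (f : CuspForm (Gamma0 N : Subgroup (GL (Fin 2) ℝ)) 2) {s : ℂ} (hs : 2 < s.re) :
    ∑' n : ℕ, (UpperHalfPlane.qExpansion 1 f).coeff (n + 1) * ((n + 1 : ℕ) : ℂ) ^ (-s) =
      Lf f s := by
  have h := lf_hasSum f hs
  rw [← h.tsum_eq, h.summable.tsum_eq_zero_add]
  have hs0 : s ≠ 0 := by
    intro h
    rw [h] at hs
    norm_num at hs
  rw [Nat.cast_zero, Complex.zero_cpow hs0, div_zero, zero_add]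
  refine tsum_congr fun n => ?_
  rw [Complex.cpow_neg, div_eq_mul_inv]

/-- uniqueness of the completed function -/
theorem completed_eq {Λ : ℂ → ℂ} (hΛ : Differentiable ℂ Λ) (h : ∀ s : ℂ, 2 < s.re →
    Λ s = ((√(N : ℝ) / (2 * Real.pi) : ℝ) : ℂ) ^ s * Complex.Gamma s *
      ∑' n : ℕ, (UpperHalfPlane.qExpansion 1 f).coeff (n + 1) * ((n + 1 : ℕ) : ℂ) ^ (-s)) :
    Λ = LamN f := by
  have hV : IsOpen {z : ℂ | 3 < z.re} := isOpen_lt continuous_const Complex.continuous_re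
  have h4 : (4 : ℂ) ∈ {z : ℂ | 3 < z.re} := by
    show (3 : ℝ) < (4 : ℂ).re
    norm_num
  refine AnalyticOnNhd.eq_of_eventuallyEq (fun z _ => hΛ.analyticAt z)
    (fun z _ => (lamN_diff f).analyticAt z) (z₀ := 4) ?_
  filter_upwards [hV.mem_nhds h4] with s hs
  have hs' : 3 < s.re := hs
  rw [h s (by linarith), lamN_L f (by linarith), lf_shift f (by linarith)]

theorem gamma_le' {x : ℝ} (hx : 1 ≤ x) : Real.Gamma x ≤ Real.exp (2 * (x + 1) ^ (3 / 2 : ℝ)) := by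
  rcases le_total x 2 with h2 | h2
  · have h1 : Real.Gamma x ≤ 1 := by
      have hc := Real.convexOn_Gamma
      have h3 := hc.2 (mem_Ioi.2 (show (0 : ℝ) < 1 by norm_num)) (mem_Ioi.2 (show (0 : ℝ) < 2 by norm_num))
        (show (0 : ℝ) ≤ 2 - x by linarith) (show (0 : ℝ) ≤ x - 1 by linarith) (by ring)
      rw [Real.Gamma_one, Real.Gamma_two, smul_eq_mul, smul_eq_mul] at h3
      simp only [smul_eq_mul] at h3
      have e : (2 - x) * 1 + (x - 1) * 2 = x := by ring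
      rw [e] at h3
      linarith
    refine h1.trans (Real.one_le_exp ?_)
    have : 0 ≤ (x + 1) ^ (3 / 2 : ℝ) := Real.rpow_nonneg (by linarith) _
    linarith
  · have h0 : (x : ℝ) ≤ ⌈x⌉₊ := Nat.le_ceil x
    have h1 : Real.Gamma x ≤ Real.Gamma ((⌈x⌉₊ : ℝ) + 1) := by
      apply (Real.Gamma_strictMonoOn_Ici).monotoneOn
      · exact h2
      · show (2 : ℝ) ≤ _
        linarith
      · linarith
    rw [Real.Gamma_nat_eq_factorial] at h1
    have h2 : ((⌈x⌉₊.factorial : ℕ) : ℝ) ≤ (⌈x⌉₊ : ℝ) ^ ⌈x⌉₊ := by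
      exact_mod_cast Nat.factorial_le_pow _
    have hp : (0 : ℝ) < ⌈x⌉₊ := by linarith
    have h3 : (⌈x⌉₊ : ℝ) ^ ⌈x⌉₊ = Real.exp (Real.log ⌈x⌉₊ * ⌈x⌉₊) := by
      rw [← Real.rpow_natCast, Real.rpow_def_of_pos hp]
    have h4 : Real.log ⌈x⌉₊ * ⌈x⌉₊ ≤ 2 * (x + 1) ^ (3 / 2 : ℝ) := by
      have h5 : Real.log ⌈x⌉₊ ≤ (⌈x⌉₊ : ℝ) ^ (1 / 2 : ℝ) / (1 / 2) :=
        Real.log_le_rpow_div hp.le (by norm_num)
      have h6 : (⌈x⌉₊ : ℝ) ^ (3 / 2 : ℝ) = (⌈x⌉₊ : ℝ) ^ (1 / 2 : ℝ) * ⌈x⌉₊ := by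
        have h7 : (3 / 2 : ℝ) = 1 / 2 + 1 := by norm_num
        rw [h7, Real.rpow_add hp, Real.rpow_one]
      have h7 : (⌈x⌉₊ : ℝ) ≤ x + 1 := (Nat.ceil_lt_add_one (by linarith)).le
      have h8 : (⌈x⌉₊ : ℝ) ^ (3 / 2 : ℝ) ≤ (x + 1) ^ (3 / 2 : ℝ) :=
        Real.rpow_le_rpow hp.le h7 (by norm_num)
      nlinarith
    calc Real.Gamma x ≤ Real.exp (Real.log ⌈x⌉₊ * ⌈x⌉₊) := by rw [← h3]; exact h1.trans h2
      _ ≤ _ := Real.exp_le_exp.2 h4

/-- the growth of the completed function -/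
theorem lamN_growth (hf : Frk f w) (hw : w = 1 ∨ w = -1) :
    ∃ K : ℝ, ∀ z : ℂ, ‖LamN f (1 + z)‖ ≤ Real.exp (K * (1 + ‖z‖) ^ (3 / 2 : ℝ)) := by
  obtain ⟨C, κ, hb⟩ := lf_growth f
  set q : ℝ := √(N : ℝ) / (2 * Real.pi) with hq
  have hN : (0 : ℝ) < N := by exact_mod_cast Nat.pos_of_ne_zero (NeZero.ne N)
  have hq0 : 0 < q := by
    rw [hq]
    have := Real.sqrt_pos.2 hN
    positivity
  set K : ℝ := 2 * |Real.log q| + 8 + |Real.log (|C| + 1)| + 2 * κ with hK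
  have hpos : ∀ z : ℂ, 0 ≤ z.re → ‖LamN f (1 + z)‖ ≤ Real.exp (K * (1 + ‖z‖) ^ (3 / 2 : ℝ)) := by
    intro z hz
    have hre : (1 + z).re = 1 + z.re := by simp
    have hz1 : z.re ≤ ‖z‖ := (le_abs_self _).trans (Complex.abs_re_le_norm z)
    set x : ℝ := 1 + ‖z‖ with hx
    have hx1 : 1 ≤ x := by linarith [norm_nonneg z]
    have hx32 : x ≤ x ^ (3 / 2 : ℝ) := by
      conv_lhs => rw [← Real.rpow_one x]
      exact Real.rpow_le_rpow_of_exponent_le hx1 (by norm_num)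
    have h11 : 1 ≤ x ^ (3 / 2 : ℝ) := hx1.trans hx32
    rw [lamN_L f (by rw [hre]; linarith), norm_mul, norm_mul]
    have e1 : ‖((q : ℝ) : ℂ) ^ (1 + z)‖ ≤ Real.exp (|Real.log q| * x) := by
      rw [Complex.norm_cpow_eq_rpow_re_of_pos hq0, hre, Real.rpow_def_of_pos hq0]
      apply Real.exp_le_exp.2
      calc Real.log q * (1 + z.re) ≤ |Real.log q| * (1 + z.re) :=
            mul_le_mul_of_nonneg_right (le_abs_self _) (by linarith)
        _ ≤ _ := mul_le_mul_of_nonneg_left (by linarith) (abs_nonneg _)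
    have e2 : ‖Complex.Gamma (1 + z)‖ ≤ Real.exp (8 * x ^ (3 / 2 : ℝ)) := by
      refine (norm_Gamma_le (by rw [hre]; linarith)).trans ?_
      refine (gamma_le' (by rw [hre]; linarith)).trans (Real.exp_le_exp.2 ?_)
      have h3 : ((1 + z).re + 1) ^ (3 / 2 : ℝ) ≤ (2 * x) ^ (3 / 2 : ℝ) := by
        rw [hre]
        exact Real.rpow_le_rpow (by linarith) (by linarith) (by norm_num)
      have h4 : (2 * x) ^ (3 / 2 : ℝ) ≤ 4 * x ^ (3 / 2 : ℝ) := by
        rw [Real.mul_rpow (by norm_num) (by linarith)]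
        apply mul_le_mul_of_nonneg_right _ (by linarith)
        calc (2 : ℝ) ^ (3 / 2 : ℝ) ≤ 2 ^ (2 : ℝ) :=
              Real.rpow_le_rpow_of_exponent_le (by norm_num) (by norm_num)
          _ = 4 := by norm_num
      linarith
    have e3 : ‖Lf f (1 + z)‖ ≤ Real.exp ((|Real.log (|C| + 1)| + 2 * κ) * x) := by
      refine (hb (1 + z) (by rw [hre]; linarith)).trans ?_
      have h3 : 1 + ‖1 + z‖ ≤ 2 * x := by
        have := norm_add_le (1 : ℂ) z
        rw [norm_one] at this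
        linarith [norm_nonneg z]
      have h4 : (2 * x) ^ κ ≤ Real.exp (2 * κ * x) := by
        have h5 : 2 * x ≤ Real.exp (2 * x) := by linarith [Real.add_one_le_exp (2 * x)]
        calc (2 * x) ^ κ ≤ Real.exp (2 * x) ^ κ := pow_le_pow_left₀ (by linarith) h5 κ
          _ = _ := by
            rw [← Real.exp_nat_mul]
            congr 1
            ring
      have h6 : C ≤ Real.exp (|Real.log (|C| + 1)| * x) := by
        have h7 : |C| + 1 = Real.exp (Real.log (|C| + 1)) := (Real.exp_log (by positivity)).symm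
        have h8 : Real.exp (Real.log (|C| + 1)) ≤ Real.exp (|Real.log (|C| + 1)| * x) := by
          apply Real.exp_le_exp.2
          refine (le_abs_self _).trans (le_mul_of_one_le_right (abs_nonneg _) hx1)
        linarith [le_abs_self C]
      calc C * (1 + ‖1 + z‖) ^ κ ≤ Real.exp (|Real.log (|C| + 1)| * x) * Real.exp (2 * κ * x) := by
            refine mul_le_mul h6 ((pow_le_pow_left₀ (by positivity) h3 κ).trans h4) (by positivity)
              (Real.exp_pos _).le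
        _ = _ := by
          rw [← Real.exp_add]
          congr 1
          ring
    calc _ ≤ Real.exp (|Real.log q| * x) * Real.exp (8 * x ^ (3 / 2 : ℝ)) *
          Real.exp ((|Real.log (|C| + 1)| + 2 * κ) * x) := by gcongr
      _ = Real.exp (|Real.log q| * x + 8 * x ^ (3 / 2 : ℝ) + (|Real.log (|C| + 1)| + 2 * κ) * x) := by
          rw [Real.exp_add, Real.exp_add]
      _ ≤ _ := by
          apply Real.exp_le_exp.2
          rw [hK]
          have h9 : |Real.log q| * x ≤ |Real.log q| * x ^ (3 / 2 : ℝ) :=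
            mul_le_mul_of_nonneg_left hx32 (abs_nonneg _)
          have h10 : (|Real.log (|C| + 1)| + 2 * κ) * x ≤
              (|Real.log (|C| + 1)| + 2 * κ) * x ^ (3 / 2 : ℝ) :=
            mul_le_mul_of_nonneg_left hx32 (by positivity)
          have h12 : 0 ≤ |Real.log q| * x ^ (3 / 2 : ℝ) := by positivity
          linarith
  refine ⟨K, fun z => ?_⟩
  rcases le_total 0 z.re with h | h
  · exact hpos z h
  · have h1 := lamN_fe hf hw (1 + -z)
    have h2 : (2 : ℂ) - (1 + -z) = 1 + z := by ring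
    rw [h2] at h1
    have h3 : ‖(w : ℂ)‖ = 1 := by rcases hw with h | h <;> simp [h]
    rw [h1, norm_mul, h3, one_mul]
    have h4 := hpos (-z) (by rw [Complex.neg_re]; linarith)
    rwa [norm_neg] at h4

theorem compl_frk (hf : Frk f w) (hw : w = 1 ∨ w = -1) {ρ : ℕ}
    (hρ : analyticOrderAt (LamN f) 1 = ρ) :
    ∃ K : ℝ, Compl (fun z => LamN f (1 + z)) ρ K w := by
  obtain ⟨K, hK⟩ := lamN_growth hf hw
  refine ⟨K, ?_, hK, ?_, fun z => ?_⟩
  · exact (lamN_diff f).comp (by fun_prop)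
  · have h1 : AnalyticAt ℂ (fun s : ℂ => 1 + s) 0 := by fun_prop
    have h2 : deriv (fun s : ℂ => 1 + s) 0 ≠ 0 := by simp
    have h3 := analyticOrderAt_comp_of_deriv_ne_zero (f := LamN f) h1 h2
    simp only [add_zero] at h3
    rw [← hρ, ← h3]
    rfl
  · have h1 := lamN_fe hf hw (1 + z)
    have h2 : (2 : ℂ) - (1 + z) = 1 + -z := by ring
    rw [h2] at h1
    exact h1

end Pool.Agent.Q5.SZ
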