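import Pool.Agent.TH270.MS.GrowthF
import Pool.Agent.Q5.SZ.Frk

/-!
# The incomplete `L`-series of an elliptic curve and the completed `L`-function of its newform
-/

set_option autoImplicit false

open Filter Topology Set Complex
open CongruenceSubgroup Pool.Agent.TH941
open scoped MatrixGroups
open Pool.Agent.W165.RS (ac ac_zero)
open Pool.Agent.W263.BSD (IsLSeries GoodPrime pointCount good_of_large)
open Pool.Agent.TH942.RZ Pool.Agent.TH942.RZ.Growth
open Pool.Agent.TH270.MS.EQ (Df_ge')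

namespace Pool.Agent.Q5.SZ

theorem Ef_ne {N : ℕ} [NeZero N] {f : CuspForm (Gamma0 N : Subgroup (GL (Fin 2) ℝ)) 2}
    (hf : Hecke f) {p : ℕ} (hp : p.Prime) {z : ℂ} (hz : 1 ≤ z.re) : Ef (ac f) N p z ≠ 0 := by
  have hp0 : (0 : ℝ) < p := by exact_mod_cast hp.pos
  have hp1 : (1 : ℝ) < p := by exact_mod_cast hp.one_lt
  have hx : ‖(p : ℂ) ^ (-z)‖ ≤ 1 / p := by
    rw [Complex.norm_natCast_cpow_of_pos hp.pos, Complex.neg_re, one_div, ← Real.rpow_neg_one]
    exact Real.rpow_le_rpow_of_exponent_le hp1.le (by linarith)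
  set x : ℂ := (p : ℂ) ^ (-z) with hxd
  have hinv : 1 / (p : ℝ) < 1 := by
    rw [div_lt_one hp0]
    exact hp1
  unfold Ef
  by_cases hd : p ∣ N
  · rw [if_pos hd, add_zero]
    intro h
    have h1 : ac f p * x = 1 := by linear_combination -h
    have h2 : ‖ac f p * x‖ ≤ 1 * (1 / p) := by
      rw [norm_mul]
      exact mul_le_mul (hf.bad p hp hd) hx (norm_nonneg _) zero_le_one
    rw [h1, norm_one] at h2
    linarith
  · rw [if_neg hd, cpow_sq hp, ← hxd]
    have hreal : ((ac f p).re : ℂ) = ac f p := by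
      apply Complex.ext
      · simp
      · simp [hf.real p]
    have hb : |(ac f p).re| ≤ 2 * Real.sqrt p := by
      have := hf.good p hp hd
      rwa [← hreal, Complex.norm_real, Real.norm_eq_abs] at this
    obtain ⟨α, β, hα, hβ, hs, hm⟩ := exists_roots' hp0 hb
    rw [hreal] at hs
    have hm' : α * β = (p : ℂ) := by
      rw [hm]
      simp
    have e : 1 - ac f p * x + p * x ^ 2 = (1 - α * x) * (1 - β * x) := by
      rw [← hs, ← hm']
      ring
    rw [e]
    have hsq : √(p : ℝ) * (1 / p) < 1 := by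
      rw [mul_one_div, Real.sqrt_div_self', div_lt_one (Real.sqrt_pos.2 hp0)]
      rw [Real.lt_sqrt zero_le_one]
      simpa using hp1
    have key : ∀ γ : ℂ, ‖γ‖ = √(p : ℝ) → 1 - γ * x ≠ 0 := by
      intro γ hγ h
      have h1 : γ * x = 1 := by linear_combination -h
      have h2 : ‖γ * x‖ ≤ √(p : ℝ) * (1 / p) := by
        rw [norm_mul, hγ]
        exact mul_le_mul_of_nonneg_left hx (Real.sqrt_nonneg _)
      rw [h1, norm_one] at h2
      linarith
    exact mul_ne_zero (key α hα) (key β hβ)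

/-- the incomplete and the complete `L`-series differ by functions without zeros for `Re z ≥ 1` -/
theorem link {a b : ℤ} {F : ℂ → ℂ} (hΔ : 4 * a ^ 3 + 27 * b ^ 2 ≠ 0) (hF : IsLSeries a b F)
    {N : ℕ} [NeZero N] {f : CuspForm (Gamma0 N : Subgroup (GL (Fin 2) ℝ)) 2} (hf : Hecke f)
    (hb : Belongs a b f) :
    ∃ P1 P2 : ℂ → ℂ, Differentiable ℂ P1 ∧ Differentiable ℂ P2 ∧
      (∀ z : ℂ, 1 ≤ z.re → P1 z ≠ 0) ∧ (∀ z : ℂ, 1 ≤ z.re → P2 z ≠ 0) ∧
      ∀ z, F z * P2 z = Lf f z * P1 z := by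
  classical
  obtain ⟨C, hC, hS⟩ := partial_sum_bound f
  have hS' : ∀ M : ℕ, ‖∑ k ∈ Finset.Icc 1 M, ac f k‖ ≤
      C * ((M : ℝ) + 1) * (1 + Real.log ((M : ℝ) + 1)) := by
    intro M
    have e : ∑ n ∈ Finset.range (M + 1), ac f n = ∑ k ∈ Finset.Icc 1 M, ac f k := by
      have : Finset.range (M + 1) = insert 0 (Finset.Icc 1 M) := by
        ext x
        simp only [Finset.mem_range, Finset.mem_insert, Finset.mem_Icc]
        omega
      rw [this, Finset.sum_insert (by simp), ac_zero, zero_add]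
    rw [← e]
    exact hS M
  obtain ⟨D, hD⟩ := good_of_large hΔ
  have hN0 : N ≠ 0 := NeZero.ne N
  obtain ⟨S, hSe⟩ : ∃ S : Finset ℕ, S = (Finset.range (D + N + 1)).filter
      (fun p => p.Prime ∧ (¬ GoodPrime a b p ∨ p ∣ N)) := ⟨_, rfl⟩
  have hSp : ∀ p ∈ S, p.Prime := by
    intro p hp
    rw [hSe, Finset.mem_filter] at hp
    exact hp.2.1
  have hSn : ∀ p : ℕ, p.Prime → p ∉ S → GoodPrime a b p ∧ ¬ p ∣ N := by
    intro p hp hpS
    rw [hSe, Finset.mem_filter, Finset.mem_range] at hpS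
    by_cases hlt : p < D + N + 1
    · by_contra hcon
      apply hpS
      refine ⟨hlt, hp, ?_⟩
      tauto
    · refine ⟨hD p hp (by omega), fun hd => ?_⟩
      have := Nat.le_of_dvd (Nat.pos_of_ne_zero hN0) hd
      omega
  have hSg : ∀ p ∈ S, GoodPrime a b p → 3 ≤ p ∧
      ‖(p : ℂ) - (pointCount a b p : ℂ)‖ ≤ 1 := by
    intro p hp hg
    rw [hSe, Finset.mem_filter] at hp
    have hdN : p ∣ N := by
      rcases hp.2.2 with h | h
      · exact absurd hg h
      · exact h
    constructor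
    · have h2 := hp.2.1.two_le
      rcases Nat.lt_or_ge p 3 with h | h
      · exfalso
        have hp2 : p = 2 := by omega
        apply hg.2
        rw [hp2]
        exact Dvd.intro _ rfl
      · exact h
    · rw [← hb p hg]
      exact hf.bad p hp.2.1 hdN
  obtain ⟨P1, hP1⟩ : ∃ P1 : ℂ → ℂ, P1 = fun z => ∏ p ∈ S, Ef (ac f) N p z := ⟨_, rfl⟩
  obtain ⟨P2, hP2⟩ : ∃ P2 : ℂ → ℂ, P2 = fun z => ∏ p ∈ S,
    (if GoodPrime a b p then Df a b p z else 1) := ⟨_, rfl⟩
  have hP1d : Differentiable ℂ P1 := by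
    rw [hP1]
    intro w
    refine DifferentiableAt.fun_finsetProd fun p hp => ?_
    exact Ef_differentiable _ _ (hSp p hp) w
  have hP2d : Differentiable ℂ P2 := by
    rw [hP2]
    intro w
    refine DifferentiableAt.fun_finsetProd fun p hp => ?_
    split_ifs
    · exact Df_differentiable _ _ (hSp p hp) w
    · exact differentiableAt_const _
  have hA1 : AnalyticOnNhd ℂ (fun z => F z * P2 z) Set.univ :=
    (hF.1.mul hP2d).differentiableOn.analyticOnNhd isOpen_univ
  have hA2 : AnalyticOnNhd ℂ (fun z => Lf f z * P1 z) Set.univ :=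
    ((lf_diff f).mul hP1d).differentiableOn.analyticOnNhd isOpen_univ
  have hEq : Set.EqOn (fun z => F z * P2 z) (fun z => Lf f z * P1 z) Set.univ := by
    refine hA1.eqOn_of_preconnected_of_eventuallyEq hA2 isPreconnected_univ (z₀ := 4)
      (Set.mem_univ _) ?_
    have hV : IsOpen {z : ℂ | 3 < z.re} := isOpen_lt continuous_const Complex.continuous_re
    have h4 : (4 : ℂ) ∈ {z : ℂ | 3 < z.re} := by
      show (3 : ℝ) < (4 : ℂ).re
      norm_num
    filter_upwards [hV.mem_nhds h4] with z hz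
    have hz' : 3 < z.re := hz
    have hk := key_identity hF hf hb hz' (lsummable hC hS' hz') S hSp hSn
    have h5 : Lf f z = LSeries (ac f) z := by
      rw [← (lf_hasSum f (s := z) (by linarith)).tsum_eq, LSeries]
      refine tsum_congr fun n => ?_
      rcases Nat.eq_zero_or_pos n with h0 | h0
      · subst h0
        have hs0 : z ≠ 0 := by
          intro h
          rw [h] at hz'
          norm_num at hz'
        simp [Complex.zero_cpow hs0]
      · rw [LSeries.term_of_ne_zero h0.ne']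
        rfl
    rw [← h5] at hk
    rw [hP1, hP2]
    exact hk
  refine ⟨P1, P2, hP1d, hP2d, fun z hz => ?_, fun z hz => ?_, fun z => hEq (Set.mem_univ z)⟩
  · rw [hP1]
    exact Finset.prod_ne_zero_iff.2 fun p hp => Ef_ne hf (hSp p hp) hz
  · rw [hP2]
    refine Finset.prod_ne_zero_iff.2 fun p hp => ?_
    split_ifs with hg
    · obtain ⟨h3, h1⟩ := hSg p hp hg
      have h4 := Df_ge' (hSp p hp) h3 h1 (z := z) (by linarith)
      intro h
      rw [h, norm_zero] at h4
      linarith
    · exact one_ne_zero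

theorem order_mul_ne {f g : ℂ → ℂ} {z : ℂ} (hf : AnalyticAt ℂ f z) (hg : AnalyticAt ℂ g z)
    (h : g z ≠ 0) : analyticOrderAt (fun s => f s * g s) z = analyticOrderAt f z := by
  have e : (fun s => f s * g s) = f * g := rfl
  rw [e, analyticOrderAt_mul hf hg, (hg.analyticOrderAt_eq_zero).2 h, add_zero]

/-- the zeros of the incomplete `L`-series with `Re z ≥ 1` are the zeros of the completed function -/
theorem order_link {a b : ℤ} {F : ℂ → ℂ} (hΔ : 4 * a ^ 3 + 27 * b ^ 2 ≠ 0) (hF : IsLSeries a b F)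
    {N : ℕ} [NeZero N] {f : CuspForm (Gamma0 N : Subgroup (GL (Fin 2) ℝ)) 2} (hf : Hecke f)
    (hb : Belongs a b f) {z : ℂ} (hz : 1 ≤ z.re) :
    analyticOrderAt F z = analyticOrderAt (LamN f) z := by
  obtain ⟨P1, P2, h1, h2, h3, h4, h5⟩ := link hΔ hF hf hb
  have hN : (0 : ℝ) < N := by exact_mod_cast Nat.pos_of_ne_zero (NeZero.ne N)
  have hq : (0 : ℝ) < √(N : ℝ) / (2 * Real.pi) := by
    have := Real.sqrt_pos.2 hN
    positivity
  have hqc : ((√(N : ℝ) / (2 * Real.pi) : ℝ) : ℂ) ≠ 0 := by exact_mod_cast hq.ne'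
  rw [← order_mul_ne (hF.1.analyticAt z) (h2.analyticAt z) (h4 z hz)]
  have e1 : (fun s => F s * P2 s) = fun s => Lf f s * P1 s := funext h5
  rw [e1, order_mul_ne ((lf_diff f).analyticAt z) (h1.analyticAt z) (h3 z hz)]
  have ho : IsOpen {s : ℂ | 0 < s.re} := isOpen_lt continuous_const Complex.continuous_re
  have hz0 : 0 < z.re := by linarith
  have e2 : LamN f =ᶠ[𝓝 z] fun s => Lf f s *
      (((√(N : ℝ) / (2 * Real.pi) : ℝ) : ℂ) ^ s * Complex.Gamma s) := by
    filter_upwards [ho.mem_nhds hz0] with s hs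
    rw [lamN_L f hs]
    ring
  rw [analyticOrderAt_congr e2]
  refine (order_mul_ne ((lf_diff f).analyticAt z) ?_ ?_).symm
  · have h6 : DifferentiableOn ℂ (fun s : ℂ => ((√(N : ℝ) / (2 * Real.pi) : ℝ) : ℂ) ^ s *
        Complex.Gamma s) {s : ℂ | 0 < s.re} := by
      intro s hs
      have hs' : 0 < s.re := hs
      refine DifferentiableAt.differentiableWithinAt (DifferentiableAt.mul ?_ ?_)
      · exact (hasDerivAt_id s).differentiableAt.const_cpow (Or.inl hqc)
      · refine Complex.differentiableAt_Gamma s fun m h => ?_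
        rw [h] at hs'
        simp at hs'
        have : (0 : ℝ) ≤ m := Nat.cast_nonneg m
        linarith
    exact h6.analyticOnNhd ho z hz0
  · refine mul_ne_zero (fun h => hqc ((Complex.cpow_eq_zero_iff _ _).1 h).1)
      (Complex.Gamma_ne_zero_of_re_pos hz0)

end Pool.Agent.Q5.SZ
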